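import Pool.Agent.H2.RR.Intp

/-!
Almost invariant elements: if `f` has order `n ≥ 1` and `g f ≡ f mod X ^ B` for all `g` in a group
`Z ^ h` with `v (g X - X) ≤ C p ^ (h lev g)`, then `B ≤ C j p ^ (h j)` as soon as `n + 1 ≤ p ^ (h j)`.
-/

open PowerSeries
open Pool.Agent.H13.CH (Wild)

namespace Pool.Agent.H2.RR

variable {k : Type*} [Field k]

theorem approx {f u : k⟦X⟧} {n : ℕ} (hn : 1 ≤ n) (hu : constantCoeff u ≠ 0) (hf : f = X ^ n * u)
    (J : ℕ) (b : k⟦X⟧) :
    ∃ q : Fin n → Polynomial k, X ^ J ∣ b - ∑ i : Fin n, X ^ (i : ℕ) * Polynomial.aeval f (q i) := by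
  induction J with
  | zero => exact ⟨0, by rw [pow_zero]; exact one_dvd _⟩
  | succ J ih =>
    obtain ⟨q, r, hr⟩ := ih
    set c := constantCoeff r with hc
    set u0 := constantCoeff u with hu0
    have hi : J % n < n := Nat.mod_lt _ hn
    let i0 : Fin n := ⟨J % n, hi⟩
    let z : Polynomial k := Polynomial.C (c / u0 ^ (J / n)) * Polynomial.X ^ (J / n)
    refine ⟨q + Pi.single i0 z, ?_⟩
    have h1 : ∑ i : Fin n, X ^ (i : ℕ) * Polynomial.aeval f ((q + Pi.single i0 z : Fin n → Polynomial k) i) =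
        ∑ i : Fin n, X ^ (i : ℕ) * Polynomial.aeval f (q i) + X ^ (J % n) * Polynomial.aeval f z := by
      simp_rw [Pi.add_apply, map_add, mul_add, Finset.sum_add_distrib]
      congr 1
      rw [Finset.sum_eq_single i0]
      · rw [Pi.single_eq_same]
      · intro b _ hb
        rw [Pi.single_eq_of_ne hb, map_zero, mul_zero]
      · intro hb
        exact absurd (Finset.mem_univ _) hb
    have h2 : (X : k⟦X⟧) ^ (J % n) * Polynomial.aeval f z =
        X ^ J * (C (c / u0 ^ (J / n)) * u ^ (J / n)) := by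
      have h3 : Polynomial.aeval f z = C (c / u0 ^ (J / n)) * f ^ (J / n) := by
        simp only [z, map_mul, map_pow, Polynomial.aeval_C, Polynomial.aeval_X]
        rfl
      have h4 : (X : k⟦X⟧) ^ J = X ^ (J % n) * (X ^ n) ^ (J / n) := by
        rw [← pow_mul, ← pow_add, Nat.mod_add_div]
      rw [h3, h4, hf, mul_pow]
      ring
    rw [h1, h2]
    have h5 : b - (∑ i : Fin n, X ^ (i : ℕ) * Polynomial.aeval f (q i) +
        X ^ J * (C (c / u0 ^ (J / n)) * u ^ (J / n))) =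
        X ^ J * (r - C (c / u0 ^ (J / n)) * u ^ (J / n)) := by
      linear_combination hr
    rw [h5, pow_succ]
    refine mul_dvd_mul (dvd_refl _) ?_
    rw [X_dvd_iff, map_sub, map_mul, map_pow, constantCoeff_C, ← hc, ← hu0,
      div_mul_cancel₀ _ (pow_ne_zero _ hu), sub_self]

theorem mpoly {f u : k⟦X⟧} {n : ℕ} (hn : 1 ≤ n) (hu : constantCoeff u ≠ 0) (hf : f = X ^ n * u)
    (B : ℕ) :
    ∃ P : Polynomial k⟦X⟧, P.Monic ∧ P.natDegree = n ∧
      ∀ g : k⟦X⟧ →ₐ[k] k⟦X⟧, Wild g → X ^ B ∣ g f - f → X ^ B ∣ P.eval (g X) := by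
  obtain ⟨q, hq⟩ := approx hn hu hf B (X ^ n)
  let R : Polynomial k⟦X⟧ :=
    -∑ i : Fin n, Polynomial.C (Polynomial.aeval f (q i)) * Polynomial.X ^ (i : ℕ)
  have hR : R.degree < (n : ℕ) := by
    rw [Polynomial.degree_neg]
    refine lt_of_le_of_lt (Polynomial.degree_sum_le _ _) ?_
    rw [Finset.sup_lt_iff (by exact WithBot.bot_lt_coe n)]
    intro i _
    refine lt_of_le_of_lt (Polynomial.degree_C_mul_X_pow_le _ _) ?_
    exact_mod_cast i.2
  refine ⟨Polynomial.X ^ n + R, Polynomial.monic_X_pow_add hR, ?_, ?_⟩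
  · rw [Polynomial.natDegree_add_eq_left_of_degree_lt, Polynomial.natDegree_X_pow]
    rw [Polynomial.degree_X_pow]
    exact hR
  · intro g hg hgf
    have h1 : (Polynomial.X ^ n + R).eval (g X) =
        g (X ^ n - ∑ i : Fin n, X ^ (i : ℕ) * Polynomial.aeval f (q i)) +
        ∑ i : Fin n, (g X) ^ (i : ℕ) * (Polynomial.aeval (g f) (q i) - Polynomial.aeval f (q i)) := by
      simp only [R, Polynomial.eval_add, Polynomial.eval_pow, Polynomial.eval_X,
        Polynomial.eval_neg, Polynomial.eval_finsetSum, Polynomial.eval_mul, Polynomial.eval_C,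
        map_sub, map_sum, map_mul, map_pow, Polynomial.aeval_algHom_apply]
      rw [← sub_eq_zero]
      simp only [mul_sub, Finset.sum_sub_distrib]
      have : ∑ x : Fin n, Polynomial.aeval f (q x) * g X ^ (x : ℕ) =
          ∑ x : Fin n, g X ^ (x : ℕ) * Polynomial.aeval f (q x) :=
        Finset.sum_congr rfl fun _ _ => mul_comm _ _
      rw [this]
      ring
    rw [h1]
    refine dvd_add (hg.dvd_apply hq) (Finset.dvd_sum fun i _ => Dvd.dvd.mul_left ?_ _)
    refine dvd_trans hgf ?_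
    rw [Polynomial.aeval_def, Polynomial.aeval_def, Polynomial.eval₂_eq_eval_map,
      Polynomial.eval₂_eq_eval_map]
    exact Polynomial.sub_dvd_eval_sub _ _ _

/-- the box -/
noncomputable def box (h q : ℕ) : Finset (Fin h → ℤ) := Fintype.piFinset fun _ => Finset.Ico (0 : ℤ) q

theorem card_box (h q : ℕ) : (box h q).card = q ^ h := by
  unfold box
  rw [Fintype.card_piFinset]
  simp

theorem count1 {a : ℤ} {q m : ℕ} (hq : 0 < q) :
    ((Finset.Ico (0 : ℤ) ((q * m : ℕ) : ℤ)).filter fun b => (q : ℤ) ∣ a - b).card ≤ m := by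
  have h1 : ((Finset.Ico (0 : ℤ) (m : ℤ))).card = m := by simp
  conv_rhs => rw [← h1]
  refine Finset.card_le_card_of_injOn (fun b => b / (q : ℤ)) ?_ ?_
  · intro b hb
    rw [Finset.mem_coe, Finset.mem_filter, Finset.mem_Ico] at hb
    obtain ⟨⟨hb0, hb1⟩, _⟩ := hb
    rw [Finset.mem_coe, Finset.mem_Ico]
    have hq' : (0 : ℤ) < q := by exact_mod_cast hq
    refine ⟨Int.ediv_nonneg hb0 hq'.le, ?_⟩
    rw [Int.ediv_lt_iff_lt_mul hq']
    push_cast at hb1
    rw [mul_comm]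
    exact hb1
  · intro b hb c hc hbc
    rw [Finset.mem_coe, Finset.mem_filter] at hb hc
    obtain ⟨_, s, hs⟩ := hb
    obtain ⟨_, t, ht⟩ := hc
    have h2 : b = c + (t - s) * q := by linear_combination ht - hs
    have hq' : (q : ℤ) ≠ 0 := by exact_mod_cast hq.ne'
    simp only at hbc
    rw [h2, Int.add_mul_ediv_right _ _ hq'] at hbc
    have h3 : t - s = 0 := by omega
    rw [h2, h3, zero_mul, add_zero]

theorem count {h : ℕ} (a : Fin h → ℤ) {q m : ℕ} (hq : 0 < q) :
    ((box h (q * m)).filter fun b => ∀ i, (q : ℤ) ∣ a i - b i).card ≤ m ^ h := by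
  have h1 : ((box h (q * m)).filter fun b => ∀ i, (q : ℤ) ∣ a i - b i) =
      Fintype.piFinset fun i => (Finset.Ico (0 : ℤ) ((q * m : ℕ) : ℤ)).filter
        fun b => (q : ℤ) ∣ a i - b := by
    ext b
    rw [box, Finset.mem_filter, Fintype.mem_piFinset, Fintype.mem_piFinset]
    constructor
    · rintro ⟨h1, h2⟩ i
      rw [Finset.mem_filter]
      exact ⟨h1 i, h2 i⟩
    · intro h1
      exact ⟨fun i => (Finset.mem_filter.mp (h1 i)).1, fun i => (Finset.mem_filter.mp (h1 i)).2⟩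
  rw [h1, Fintype.card_piFinset]
  calc ∏ i, _ ≤ ∏ _i : Fin h, m := Finset.prod_le_prod' fun i _ => count1 hq
    _ = m ^ h := by simp

/-- the growth hypothesis -/
def Gr (p : ℕ) {h : ℕ} (A : Act (Fin h → ℤ) k) (e C : ℕ) : Prop :=
  ∀ (x : Fin h → ℤ) (m : ℕ), (¬ ∀ i, ((p ^ (m + 1) : ℕ) : ℤ) ∣ x i) →
    ¬ X ^ (C * p ^ (e * m) + 1) ∣ A.g x X - X

theorem alm {p h : ℕ} [Fact p.Prime] (A : Act (Fin h → ℤ) k) {C : ℕ} (hC : Gr p A h C)
    {f u : k⟦X⟧} {n : ℕ} (hn : 1 ≤ n) (hu : constantCoeff u ≠ 0) (hf : f = X ^ n * u) {B : ℕ}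
    (hB : ∀ x, X ^ B ∣ A.g x f - f) {j : ℕ} (hj : n + 1 ≤ p ^ (h * j)) :
    B ≤ C * j * p ^ (h * j) := by
  classical
  have hp : 0 < p := (Fact.out : p.Prime).pos
  obtain ⟨P, hPm, hPd, hPe⟩ := mpoly hn hu hf B
  have hcb : n + 1 ≤ (box h (p ^ j)).card := by
    rw [card_box, ← pow_mul, mul_comm]
    exact hj
  obtain ⟨s, hs, hsc⟩ := Finset.exists_subset_card_eq hcb
  let D : (Fin h → ℤ) → ℕ := fun c =>
    ∑ r ∈ Finset.range j, if (∀ i, ((p ^ r : ℕ) : ℤ) ∣ c i) then C * p ^ (h * r) else 0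
  have hd : ∀ a ∈ s, ∀ b ∈ s, a ≠ b → ¬ X ^ (D (a - b) + 1) ∣ A.g a X - A.g b X := by
    intro a ha b hb hab
    rw [A.dvd_sub_iff]
    have hex : ∃ m, ¬ ∀ i, ((p ^ (m + 1) : ℕ) : ℤ) ∣ (a - b) i := by
      by_contra hcon
      push Not at hcon
      apply hab
      funext i
      have h1 := hcon j i
      have ha' := Finset.mem_Ico.mp (Fintype.mem_piFinset.mp (hs ha) i)
      have hb' := Finset.mem_Ico.mp (Fintype.mem_piFinset.mp (hs hb) i)
      by_contra hne
      have h2 := Int.le_of_dvd (a := ((p ^ (j + 1) : ℕ) : ℤ)) (b := |(a - b) i|)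
        (abs_pos.mpr (sub_ne_zero.mpr hne)) ((dvd_abs _ _).mpr h1)
      have h3 : |(a - b) i| < ((p ^ j : ℕ) : ℤ) := by
        rw [Pi.sub_apply, abs_lt]
        constructor <;> omega
      have h4 : p ^ j ≤ p ^ (j + 1) := Nat.pow_le_pow_right hp (Nat.le_succ j)
      have h5 : ((p ^ j : ℕ) : ℤ) ≤ ((p ^ (j + 1) : ℕ) : ℤ) := by exact_mod_cast h4
      omega
    obtain ⟨m, hm, hmin⟩ : ∃ m, (¬ ∀ i, ((p ^ (m + 1) : ℕ) : ℤ) ∣ (a - b) i) ∧
        ∀ l < m, ∀ i, ((p ^ (l + 1) : ℕ) : ℤ) ∣ (a - b) i :=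
      ⟨Nat.find hex, Nat.find_spec hex, fun l hl => not_not.mp (Nat.find_min hex hl)⟩
    have hpm : ∀ i, ((p ^ m : ℕ) : ℤ) ∣ (a - b) i := by
      rcases m with _ | m
      · intro i
        simp
      · exact hmin m (Nat.lt_succ_self m)
    have hmj : m < j := by
      by_contra hcon
      push Not at hcon
      apply hab
      funext i
      have h1 := hpm i
      have ha' := Finset.mem_Ico.mp (Fintype.mem_piFinset.mp (hs ha) i)
      have hb' := Finset.mem_Ico.mp (Fintype.mem_piFinset.mp (hs hb) i)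
      by_contra hne
      have h2 := Int.le_of_dvd (a := ((p ^ m : ℕ) : ℤ)) (b := |(a - b) i|)
        (abs_pos.mpr (sub_ne_zero.mpr hne)) ((dvd_abs _ _).mpr h1)
      have h3 : |(a - b) i| < ((p ^ j : ℕ) : ℤ) := by
        rw [Pi.sub_apply, abs_lt]
        constructor <;> omega
      have h4 : p ^ j ≤ p ^ m := Nat.pow_le_pow_right hp hcon
      have h5 : ((p ^ j : ℕ) : ℤ) ≤ ((p ^ m : ℕ) : ℤ) := by exact_mod_cast h4
      omega
    have hDm : C * p ^ (h * m) ≤ D (a - b) := by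
      have h1 := Finset.single_le_sum (s := Finset.range j)
        (f := fun r => if (∀ i, ((p ^ r : ℕ) : ℤ) ∣ (a - b) i) then C * p ^ (h * r) else 0)
        (fun _ _ => Nat.zero_le _) (Finset.mem_range.mpr hmj)
      simp only [if_pos hpm] at h1
      exact h1
    intro hdv
    exact hC (a - b) m hm (dvd_trans (pow_dvd_pow X (by omega)) hdv)
  obtain ⟨a, ha, hBa⟩ := intp s (fun a => A.g a X) (fun a b => D (a - b)) hd P hPm
    (by rw [hPd, hsc]) B (fun a _ => hPe (A.g a) (A.wild a) (hB a))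
  refine le_trans hBa ?_
  calc ∑ b ∈ s.erase a, D (a - b) ≤ ∑ b ∈ box h (p ^ j), D (a - b) :=
        Finset.sum_le_sum_of_subset (fun b hb => hs (Finset.mem_of_mem_erase hb))
    _ = ∑ r ∈ Finset.range j, ∑ b ∈ box h (p ^ j),
          if (∀ i, ((p ^ r : ℕ) : ℤ) ∣ (a - b) i) then C * p ^ (h * r) else 0 :=
        Finset.sum_comm
    _ ≤ ∑ _r ∈ Finset.range j, C * p ^ (h * j) := by
        refine Finset.sum_le_sum fun r hr => ?_
        rw [← Finset.sum_filter, Finset.sum_const, smul_eq_mul]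
        have hrj := Finset.mem_range.mp hr
        have h1 : p ^ j = p ^ r * p ^ (j - r) := by
          rw [← pow_add]
          congr 1
          omega
        have h2 := count (h := h) a (q := p ^ r) (m := p ^ (j - r)) (pow_pos hp r)
        rw [← h1] at h2
        calc _ ≤ (p ^ (j - r)) ^ h * (C * p ^ (h * r)) := Nat.mul_le_mul_right _ h2
          _ = C * p ^ (h * j) := by
            rw [← pow_mul, mul_left_comm, ← pow_add]
            congr 2
            rw [mul_comm (j - r) h, ← Nat.mul_add]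
            congr 1
            omega
    _ = C * j * p ^ (h * j) := by
        rw [Finset.sum_const, Finset.card_range, smul_eq_mul]
        ring

end Pool.Agent.H2.RR
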