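import Pool.Agent.H2.RR.Mis

/-!
Cayley-Hamilton over a commutative ring acting on a vector space, modulo a stable subspace, and the
generation of `k⟦X⟧ / X ^ N` over the group ring by the missing exponents.
-/

open PowerSeries
open Pool.Agent.H13.CH (Wild)

namespace Pool.Agent.H2.RR

/-- Cayley-Hamilton -/
theorem cayley {k V R : Type*} [Field k] [AddCommGroup V] [Module k V] [CommRing R]
    (Φ : R →+* Module.End k V) (ψ : Module.End k V) (hc : ∀ r, Commute (Φ r) ψ)
    (L : Submodule k V) (hL : ∀ r, ∀ v ∈ L, Φ r v ∈ L) (hL' : ∀ v ∈ L, ψ v ∈ L) {r : ℕ}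
    (t : Fin r → V) (hg : ∀ v, ∃ q : Fin r → R, v - ∑ i, Φ (q i) (t i) ∈ L) :
    ∃ c : ℕ → R, c r = 1 ∧ ∀ v, ∑ j ∈ Finset.range (r + 1), Φ (c j) ((ψ ^ j) v) ∈ L := by
  classical
  choose q hq using hg
  let ev : Polynomial R →+* Module.End k V := Polynomial.eval₂RingHom' Φ ψ hc
  have ev_apply : ∀ (Q : Polynomial R) (m : ℕ), Q.natDegree < m → ∀ v,
      ev Q v = ∑ j ∈ Finset.range m, Φ (Q.coeff j) ((ψ ^ j) v) := by
    intro Q m hm v
    change (Polynomial.eval₂ Φ ψ Q : Module.End k V) v = _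
    rw [Polynomial.eval₂_eq_sum_range' _ hm, LinearMap.sum_apply]
    rfl
  have ev_C : ∀ a, ev (Polynomial.C a) = Φ a := by
    intro a
    change (Polynomial.eval₂ Φ ψ (Polynomial.C a) : Module.End k V) = _
    rw [Polynomial.eval₂_C]
  have ev_X : ev Polynomial.X = ψ := by
    change (Polynomial.eval₂ Φ ψ Polynomial.X : Module.End k V) = _
    rw [Polynomial.eval₂_X]
  have hψj : ∀ (j : ℕ), ∀ v ∈ L, (ψ ^ j) v ∈ L := by
    intro j
    induction j with
    | zero =>
      intro v hv
      exact hv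
    | succ j ih =>
      intro v hv
      rw [pow_succ, Module.End.mul_apply]
      exact ih _ (hL' v hv)
  have stab : ∀ (Q : Polynomial R), ∀ v ∈ L, ev Q v ∈ L := by
    intro Q v hv
    rw [ev_apply Q _ (Nat.lt_succ_self _)]
    exact Submodule.sum_mem _ fun j _ => hL _ _ (hψj j v hv)
  let c : Matrix (Fin r) (Fin r) R := fun i j => q (ψ (t i)) j
  let P : Polynomial R := c.charpoly
  have hPm : P.Monic := c.charpoly_monic
  have hPd : P.natDegree ≤ r := by
    by_cases hR : Nontrivial R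
    · have h := c.charpoly_natDegree_eq_dim
      rw [Fintype.card_fin] at h
      exact h.le
    · rw [not_nontrivial_iff_subsingleton] at hR
      rw [Polynomial.natDegree_of_subsingleton]
      exact Nat.zero_le _
  have hPr : P.coeff r = 1 := by
    by_cases hR : Nontrivial R
    · have h := c.charpoly_natDegree_eq_dim
      rw [Fintype.card_fin] at h
      rw [← h]
      exact hPm.coeff_natDegree
    · rw [not_nontrivial_iff_subsingleton] at hR
      exact Subsingleton.elim _ _
  have hrow : ∀ i, ∑ j, ev (c.charmatrix i j) (t j) ∈ L := by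
    intro i
    have h1 : ∑ j, ev (c.charmatrix i j) (t j) =
        ψ (t i) - ∑ j, Φ (q (ψ (t i)) j) (t j) := by
      have h2 : ∀ j, ev (c.charmatrix i j) (t j) = (if i = j then ψ (t j) else 0) -
          Φ (q (ψ (t i)) j) (t j) := by
        intro j
        by_cases hij : i = j
        · subst hij
          rw [Matrix.charmatrix_apply_eq, map_sub, ev_X, ev_C, LinearMap.sub_apply, if_pos rfl]
        · rw [Matrix.charmatrix_apply_ne _ _ _ hij, map_neg, ev_C, LinearMap.neg_apply,
            if_neg hij, zero_sub]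
      rw [Finset.sum_congr rfl fun j _ => h2 j, Finset.sum_sub_distrib,
        Finset.sum_ite_eq, if_pos (Finset.mem_univ i)]
    rw [h1]
    exact hq (ψ (t i))
  have hPt : ∀ i, ev P (t i) ∈ L := by
    intro i
    have h2 : ev P (t i) = ∑ a, ev (c.charmatrix.adjugate i a)
        (∑ j, ev (c.charmatrix a j) (t j)) := by
      have h3 : ∑ a, ev (c.charmatrix.adjugate i a) (∑ j, ev (c.charmatrix a j) (t j)) =
          ∑ j, ev ((c.charmatrix.adjugate * c.charmatrix) i j) (t j) := by
        have h4 : ∀ a, ev (c.charmatrix.adjugate i a) (∑ j, ev (c.charmatrix a j) (t j)) =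
            ∑ j, (ev (c.charmatrix.adjugate i a * c.charmatrix a j)) (t j) := by
          intro a
          rw [map_sum]
          refine Finset.sum_congr rfl fun j _ => ?_
          rw [map_mul, Module.End.mul_apply]
        rw [Finset.sum_congr rfl fun a _ => h4 a, Finset.sum_comm]
        refine Finset.sum_congr rfl fun j _ => ?_
        rw [Matrix.mul_apply, map_sum, LinearMap.sum_apply]
      rw [h3, Matrix.adjugate_mul]
      have h5 : ∀ j, ev ((c.charmatrix.det • (1 : Matrix (Fin r) (Fin r) _)) i j) (t j) =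
          if i = j then ev P (t j) else 0 := by
        intro j
        rw [Matrix.smul_apply, smul_eq_mul]
        by_cases hij : i = j
        · subst hij
          rw [Matrix.one_apply_eq, mul_one, if_pos rfl]
          rfl
        · rw [Matrix.one_apply_ne hij, mul_zero, map_zero, if_neg hij]
          rfl
      rw [Finset.sum_congr rfl fun j _ => h5 j, Finset.sum_ite_eq, if_pos (Finset.mem_univ i)]
    rw [h2]
    exact Submodule.sum_mem _ fun a _ => stab _ _ (hrow a)
  have hPf : ∀ f, ev P f ∈ L := by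
    intro f
    have h1 : ev P f = ev P (f - ∑ i, Φ (q f i) (t i)) + ∑ i, Φ (q f i) (ev P (t i)) := by
      have h2 : ∀ i, Φ (q f i) (ev P (t i)) = ev P (Φ (q f i) (t i)) := by
        intro i
        rw [← ev_C, ← Module.End.mul_apply, ← map_mul, mul_comm, map_mul, Module.End.mul_apply]
      rw [Finset.sum_congr rfl fun i _ => h2 i, map_sub, map_sum, sub_add_cancel]
    rw [h1]
    exact Submodule.add_mem _ (stab _ _ (hq f)) (Submodule.sum_mem _ fun i _ => hL _ _ (hPt i))
  refine ⟨fun j => P.coeff j, hPr, fun v => ?_⟩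
  rw [← ev_apply P (r + 1) (by omega)]
  exact hPf v

variable {k : Type*} [Field k] {H : Type*} [AddCommGroup H]

/-- the monoid hom to the linear endomorphisms -/
noncomputable def Act.mon (A : Act H k) : Multiplicative H →* Module.End k k⟦X⟧ where
  toFun x := (A.g x.toAdd).toLinearMap
  map_one' := by
    refine LinearMap.ext fun f => ?_
    exact A.zero_apply f
  map_mul' x y := by
    refine LinearMap.ext fun f => ?_
    exact A.add_apply x.toAdd y.toAdd f

/-- the group ring acts -/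
noncomputable def Act.Phi (A : Act H k) : AddMonoidAlgebra k H →+* Module.End k k⟦X⟧ :=
  (AddMonoidAlgebra.lift k (Module.End k k⟦X⟧) H A.mon).toRingHom

theorem Act.Phi_apply (A : Act H k) (q : AddMonoidAlgebra k H) (f : k⟦X⟧) :
    A.Phi q f = q.coeff.sum fun x c => c • A.g x f := by
  change (AddMonoidAlgebra.lift k (Module.End k k⟦X⟧) H A.mon q) f = _
  rw [AddMonoidAlgebra.lift_apply, Finsupp.sum, Finsupp.sum, LinearMap.sum_apply]
  rfl

theorem Act.Phi_single (A : Act H k) (x : H) (c : k) (f : k⟦X⟧) :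
    A.Phi (AddMonoidAlgebra.single x c) f = c • A.g x f := by
  change (AddMonoidAlgebra.lift k (Module.End k k⟦X⟧) H A.mon (AddMonoidAlgebra.single x c)) f = _
  rw [AddMonoidAlgebra.lift_single]
  rfl

theorem Act.Phi_mem (A : Act H k) (q : AddMonoidAlgebra k H) {N : ℕ} {f : k⟦X⟧}
    (hf : f ∈ Dv k N) : A.Phi q f ∈ Dv k N := by
  rw [A.Phi_apply, Finsupp.sum]
  exact Submodule.sum_mem _ fun x _ => Submodule.smul_mem _ _ ((A.wild x).dvd_apply hf)

/-- the span of the generators over the group ring, modulo `X ^ N` -/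
noncomputable def Sg (A : Act H k) (N : ℕ) : Submodule k k⟦X⟧ where
  carrier := {f | ∃ q : ℕ → AddMonoidAlgebra k H,
    f - ∑ e ∈ Mis A N, A.Phi (q e) (X ^ e) ∈ Dv k N}
  add_mem' := by
    rintro f f' ⟨q, hq⟩ ⟨q', hq'⟩
    refine ⟨q + q', ?_⟩
    have h1 : f + f' - ∑ e ∈ Mis A N, A.Phi ((q + q') e) (X ^ e) =
        (f - ∑ e ∈ Mis A N, A.Phi (q e) (X ^ e)) +
        (f' - ∑ e ∈ Mis A N, A.Phi (q' e) (X ^ e)) := by
      simp_rw [Pi.add_apply, map_add, LinearMap.add_apply, Finset.sum_add_distrib]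
      ring
    rw [h1]
    exact Submodule.add_mem _ hq hq'
  zero_mem' := by
    refine ⟨0, ?_⟩
    simp only [Pi.zero_apply, map_zero, LinearMap.zero_apply, Finset.sum_const_zero, sub_zero]
    exact Submodule.zero_mem _
  smul_mem' := by
    rintro c f ⟨q, hq⟩
    refine ⟨fun e => AddMonoidAlgebra.single 0 c * q e, ?_⟩
    have h1 : c • f - ∑ e ∈ Mis A N, A.Phi (AddMonoidAlgebra.single 0 c * q e) (X ^ e) =
        c • (f - ∑ e ∈ Mis A N, A.Phi (q e) (X ^ e)) := by
      rw [smul_sub, Finset.smul_sum]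
      congr 1
      refine Finset.sum_congr rfl fun e _ => ?_
      rw [map_mul, Module.End.mul_apply, A.Phi_single, A.zero_apply]
    rw [h1]
    exact Submodule.smul_mem _ _ hq

theorem Sg_stable (A : Act H k) {N : ℕ} (x : H) {f : k⟦X⟧} (hf : f ∈ Sg A N) :
    A.g x f ∈ Sg A N := by
  obtain ⟨q, hq⟩ := hf
  refine ⟨fun e => AddMonoidAlgebra.single x 1 * q e, ?_⟩
  have h1 : A.g x f - ∑ e ∈ Mis A N, A.Phi (AddMonoidAlgebra.single x 1 * q e) (X ^ e) =
      A.g x (f - ∑ e ∈ Mis A N, A.Phi (q e) (X ^ e)) := by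
    rw [map_sub, map_sum]
    congr 1
    refine Finset.sum_congr rfl fun e _ => ?_
    rw [map_mul, Module.End.mul_apply, A.Phi_single, one_smul]
  rw [h1]
  exact (A.wild x).dvd_apply hq

theorem Dv_le_Sg (A : Act H k) (N : ℕ) : Dv k N ≤ Sg A N := by
  intro f hf
  refine ⟨0, ?_⟩
  simp only [Pi.zero_apply, map_zero, LinearMap.zero_apply, Finset.sum_const_zero, sub_zero]
  exact hf

/-- iterated augmentation -/
def Tj (A : Act H k) : ℕ → Submodule k k⟦X⟧
  | 0 => ⊤
  | j + 1 => Submodule.span k {y | ∃ x, ∃ b ∈ Tj A j, y = A.g x b - b}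

theorem Tj_le (A : Act H k) (j : ℕ) : Tj A j ≤ Dv k j := by
  induction j with
  | zero =>
    intro f _
    rw [mem_Dv, pow_zero]
    exact one_dvd _
  | succ j ih =>
    refine Submodule.span_le.mpr ?_
    rintro y ⟨x, b, hb, rfl⟩
    exact (A.wild x).sub_dvd (ih hb)

theorem gen_Tj (A : Act H k) (N j : ℕ) : (⊤ : Submodule k k⟦X⟧) ≤ Sg A N ⊔ Tj A j := by
  have base : (⊤ : Submodule k k⟦X⟧) ≤ Sg A N ⊔ Tj A 1 := by
    intro b _
    obtain ⟨c, hc⟩ := gen_W A N b
    have h1 : ∑ e ∈ Mis A N, c e • (X : k⟦X⟧) ^ e ∈ Sg A N := by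
      refine ⟨fun e => AddMonoidAlgebra.single 0 (c e), ?_⟩
      simp_rw [A.Phi_single, A.zero_apply]
      rw [sub_self]
      exact Submodule.zero_mem _
    have h2 : Wm A N ≤ Sg A N ⊔ Tj A 1 := by
      refine sup_le ?_ (le_sup_of_le_left (Dv_le_Sg A N))
      refine le_sup_of_le_right ?_
      refine Submodule.span_mono ?_
      rintro y ⟨x, b, rfl⟩
      exact ⟨x, b, Submodule.mem_top, rfl⟩
    have h3 : b = ∑ e ∈ Mis A N, c e • (X : k⟦X⟧) ^ e +
      (b - ∑ e ∈ Mis A N, c e • (X : k⟦X⟧) ^ e) := by ring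
    rw [h3]
    exact Submodule.add_mem _ (Submodule.mem_sup_left h1) (h2 hc)
  induction j with
  | zero =>
    refine le_sup_of_le_right ?_
    exact le_rfl
  | succ j ih =>
    refine le_trans base (sup_le le_sup_left ?_)
    refine Submodule.span_le.mpr ?_
    rintro y ⟨x, b, _, rfl⟩
    obtain ⟨s, hs, t, ht, hst⟩ := Submodule.mem_sup.mp (ih (Submodule.mem_top (x := b)))
    have h1 : A.g x b - b = (A.g x s - s) + (A.g x t - t) := by
      rw [← hst, map_add]
      ring
    rw [h1]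
    refine Submodule.add_mem _ (Submodule.mem_sup_left ?_) (Submodule.mem_sup_right ?_)
    · exact Submodule.sub_mem _ (Sg_stable A x hs) hs
    · exact Submodule.subset_span ⟨x, t, ht, rfl⟩

theorem gen_all (A : Act H k) (N : ℕ) (f : k⟦X⟧) : ∃ q : ℕ → AddMonoidAlgebra k H,
    f - ∑ e ∈ Mis A N, A.Phi (q e) (X ^ e) ∈ Dv k N := by
  have h1 : (⊤ : Submodule k k⟦X⟧) ≤ Sg A N :=
    le_trans (gen_Tj A N N) (sup_le le_rfl (le_trans (Tj_le A N) (Dv_le_Sg A N)))
  exact h1 (Submodule.mem_top (x := f))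

/-- Cayley-Hamilton for the action: a monic relation of degree `(Mis A N).card` -/
theorem chm (A : Act H k) (ψ : k⟦X⟧ →ₐ[k] k⟦X⟧) (hψ : Wild ψ)
    (hc : ∀ x f, A.g x (ψ f) = ψ (A.g x f)) (N : ℕ) :
    ∃ c : ℕ → AddMonoidAlgebra k H, c (Mis A N).card = 1 ∧
      ∀ f, X ^ N ∣ ∑ j ∈ Finset.range ((Mis A N).card + 1), A.Phi (c j) ((ψ ^ j) f) := by
  classical
  have hcom : ∀ r, Commute (A.Phi r) (ψ.toLinearMap : Module.End k k⟦X⟧) := by
    intro r
    refine LinearMap.ext fun f => ?_
    rw [Module.End.mul_apply, Module.End.mul_apply, A.Phi_apply, A.Phi_apply, Finsupp.sum,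
      Finsupp.sum, map_sum]
    refine Finset.sum_congr rfl fun x _ => ?_
    rw [map_smul]
    congr 1
    exact hc x f
  let E := (Mis A N).equivFin
  obtain ⟨c, hc1, hc2⟩ := cayley A.Phi (ψ.toLinearMap) hcom (Dv k N)
    (fun r v hv => A.Phi_mem r hv) (fun v hv => hψ.dvd_apply hv)
    (r := (Mis A N).card) (fun i => X ^ ((E.symm i : Mis A N) : ℕ)) (by
      intro v
      obtain ⟨q, hq⟩ := gen_all A N v
      refine ⟨fun i => q ((E.symm i : Mis A N) : ℕ), ?_⟩
      have h1 : ∑ i, A.Phi (q ((E.symm i : Mis A N) : ℕ)) (X ^ ((E.symm i : Mis A N) : ℕ)) =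
          ∑ e ∈ Mis A N, A.Phi (q e) (X ^ e) := by
        rw [← Finset.sum_coe_sort (Mis A N) (fun e => A.Phi (q e) (X ^ e))]
        exact Equiv.sum_comp E.symm (fun e : Mis A N => A.Phi (q (e : ℕ)) (X ^ (e : ℕ)))
      rw [h1]
      exact hq)
  refine ⟨c, hc1, fun f => ?_⟩
  have h := hc2 f
  rw [mem_Dv] at h
  convert h using 3 with j _
  rw [Pool.Agent.H13.CH.toLinearMap_pow_apply]

end Pool.Agent.H2.RR
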