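import Pool.Agent.H13.CH.Basic

/-!
# Theorem R (ramification of abelian groups of automorphisms of `k⟦X⟧`): basics

`Act G k`: an additive group `G` acts on `k⟦X⟧` by `k`-algebra maps `φ` with `φ X ≡ X mod X ^ 2`.
-/

open PowerSeries
open Pool.Agent.H13.CH (Wild)

namespace Pool.Agent.H2.RR

variable {k : Type*} [Field k]

/-- a wild action of an additive abelian group on `k⟦X⟧` -/
structure Act (G : Type*) [AddCommGroup G] (k : Type*) [Field k] where
  g : G → (k⟦X⟧ →ₐ[k] k⟦X⟧)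
  zero : g 0 = 1
  add : ∀ a b, g (a + b) = g a * g b
  wild : ∀ a, Wild (g a)

namespace Act

variable {G : Type*} [AddCommGroup G] (A : Act G k)

theorem add_apply (a b : G) (f : k⟦X⟧) : A.g (a + b) f = A.g a (A.g b f) := by
  rw [A.add, AlgHom.mul_apply]

theorem zero_apply (f : k⟦X⟧) : A.g 0 f = f := by
  rw [A.zero, AlgHom.one_apply]

theorem neg_left (a : G) (f : k⟦X⟧) : A.g (-a) (A.g a f) = f := by
  rw [← A.add_apply, neg_add_cancel, A.zero_apply]

theorem neg_right (a : G) (f : k⟦X⟧) : A.g a (A.g (-a) f) = f := by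
  rw [← A.add_apply, add_neg_cancel, A.zero_apply]

theorem comm (a b : G) (f : k⟦X⟧) : A.g a (A.g b f) = A.g b (A.g a f) := by
  rw [← A.add_apply, add_comm, A.add_apply]

theorem dvd_iff (a : G) {N : ℕ} {f : k⟦X⟧} : X ^ N ∣ A.g a f ↔ X ^ N ∣ f := by
  constructor
  · intro h
    have := (A.wild (-a)).dvd_apply h
    rwa [A.neg_left] at this
  · intro h
    exact (A.wild a).dvd_apply h

theorem sub_eq (a b : G) (f : k⟦X⟧) : A.g a f - A.g b f = A.g b (A.g (a - b) f - f) := by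
  rw [map_sub, ← A.add_apply, add_sub_cancel]

theorem dvd_sub_iff (a b : G) {N : ℕ} {f : k⟦X⟧} :
    X ^ N ∣ A.g a f - A.g b f ↔ X ^ N ∣ A.g (a - b) f - f := by
  rw [A.sub_eq, A.dvd_iff]

/-- `g^m = g(m • a)` -/
theorem nsmul (n : ℕ) (a : G) : A.g (n • a) = A.g a ^ n := by
  induction n with
  | zero => rw [zero_smul, pow_zero, A.zero]
  | succ n ih => rw [succ_nsmul, A.add, ih, pow_succ]

theorem congr_dvd (a : G) {N : ℕ} (h : X ^ N ∣ A.g a X - X) (f : k⟦X⟧) :
    X ^ N ∣ A.g a f - f := by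
  have := (A.wild a).congr (Pool.Agent.H13.CH.Wild.one (k := k)) (N := N)
    (by rwa [AlgHom.one_apply]) f
  rwa [AlgHom.one_apply] at this

end Act

/-- a series not divisible by `X ^ (d + 1)` is `X ^ o` times a unit, `o ≤ d` -/
theorem exists_unit_of_not_dvd {f : k⟦X⟧} {d : ℕ} (h : ¬ X ^ (d + 1) ∣ f) :
    ∃ o ≤ d, ∃ u : k⟦X⟧, constantCoeff u ≠ 0 ∧ f = X ^ o * u := by
  classical
  have hf : ∃ n, coeff n f ≠ 0 := by
    by_contra hc
    push Not at hc
    apply h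
    rw [X_pow_dvd_iff]
    intro m _
    exact hc m
  obtain ⟨o, ho, hmin⟩ : ∃ o, coeff o f ≠ 0 ∧ ∀ m < o, coeff m f = 0 :=
    ⟨Nat.find hf, Nat.find_spec hf, fun m hm => not_not.mp (Nat.find_min hf hm)⟩
  refine ⟨o, ?_, ?_⟩
  · by_contra hc
    push Not at hc
    apply h
    rw [X_pow_dvd_iff]
    intro m hm
    exact hmin m (by omega)
  · have h1 : X ^ o ∣ f := by
      rw [X_pow_dvd_iff]
      exact hmin
    obtain ⟨u, hu⟩ := h1
    refine ⟨u, ?_, hu⟩
    have h3 := coeff_X_pow_mul u o 0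
    rw [zero_add, ← hu, coeff_zero_eq_constantCoeff_apply] at h3
    rw [← h3]
    exact ho

theorem isUnit_of_ne {u : k⟦X⟧} (h : constantCoeff u ≠ 0) : IsUnit u := by
  rw [isUnit_iff_constantCoeff]
  exact h.isUnit

/-- `X ^ o * unit` is not divisible by `X ^ (o + 1)` -/
theorem not_dvd_of_unit {o : ℕ} {u : k⟦X⟧} (h : constantCoeff u ≠ 0) : ¬ X ^ (o + 1) ∣ X ^ o * u := by
  intro hd
  rw [pow_succ] at hd
  have h1 : (X : k⟦X⟧) ∣ u := (mul_dvd_mul_iff_left (pow_ne_zero o X_ne_zero)).mp hd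
  rw [X_dvd_iff] at h1
  exact h h1

end Pool.Agent.H2.RR
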