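import Pool.Agent.H2.RR.Alm

/-!
Duality: invariant functionals of different depths give almost invariant elements.
-/

open PowerSeries
open Pool.Agent.H13.CH (Wild)

namespace Pool.Agent.H2.RR

variable {k : Type*} [Field k]

/-- `lam` has depth `e` -/
def Depth (lam : k⟦X⟧ →ₗ[k] k) (e : ℕ) : Prop :=
  (∀ b, lam (X ^ (e + 1) * b) = 0) ∧ lam (X ^ e) ≠ 0

theorem eq_C_add (b : k⟦X⟧) : ∃ b', b = C (constantCoeff b) + X * b' := by
  have h : (X : k⟦X⟧) ∣ b - C (constantCoeff b) := by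
    rw [X_dvd_iff, map_sub, constantCoeff_C, sub_self]
  obtain ⟨b', hb⟩ := h
  exact ⟨b', by linear_combination hb⟩

theorem lam_top {lam : k⟦X⟧ →ₗ[k] k} {e : ℕ} (h : ∀ b, lam (X ^ (e + 1) * b) = 0) (b : k⟦X⟧) :
    lam (X ^ e * b) = constantCoeff b * lam (X ^ e) := by
  obtain ⟨b', hb⟩ := eq_C_add b
  have h1 : X ^ e * b = constantCoeff b • X ^ e + X ^ (e + 1) * b' := by
    conv_lhs => rw [hb]
    rw [smul_eq_C_mul, pow_succ]
    ring
  rw [h1, map_add, h, add_zero, map_smul, smul_eq_mul]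

theorem dual_aux {lam1 : k⟦X⟧ →ₗ[k] k} {e1 : ℕ} (h1 : Depth lam1 e1) (s : ℕ) (hs : s ≤ e1 + 1)
    (lam2 : k⟦X⟧ →ₗ[k] k) (h2 : ∀ b, lam2 (X ^ s * b) = 0) :
    ∃ f, X ^ (e1 + 1 - s) ∣ f ∧ ∀ b, lam2 b = lam1 (f * b) := by
  induction s generalizing lam2 with
  | zero =>
    refine ⟨0, dvd_zero _, fun b => ?_⟩
    have := h2 b
    rw [pow_zero, one_mul] at this
    rw [this, zero_mul, map_zero]
  | succ s ih =>
    set c := lam2 (X ^ s) / lam1 (X ^ e1) with hc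
    let lam' : k⟦X⟧ →ₗ[k] k := lam2 - c • (lam1 ∘ₗ LinearMap.mulLeft k (X ^ (e1 - s)))
    have hl : ∀ b, lam' b = lam2 b - c * lam1 (X ^ (e1 - s) * b) := by
      intro b
      simp only [lam', LinearMap.sub_apply, LinearMap.smul_apply, LinearMap.comp_apply,
        LinearMap.mulLeft_apply, smul_eq_mul]
    obtain ⟨f, hf, hfb⟩ := ih (by omega) lam' (fun b => by
      rw [hl, ← mul_assoc, ← pow_add, show e1 - s + s = e1 by omega, lam_top h1.1, lam_top h2, hc]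
      have := h1.2
      field_simp
      ring)
    refine ⟨f + C c * X ^ (e1 - s), ?_, fun b => ?_⟩
    · refine dvd_add (dvd_trans (pow_dvd_pow X (by omega)) hf) (Dvd.dvd.mul_left ?_ _)
      rw [show e1 + 1 - (s + 1) = e1 - s by omega]
    · have h3 := hfb b
      rw [hl] at h3
      rw [add_mul, map_add, ← h3, mul_assoc, ← smul_eq_C_mul, map_smul, smul_eq_mul]
      ring

theorem dual {lam1 lam2 : k⟦X⟧ →ₗ[k] k} {e1 e2 : ℕ} (h1 : Depth lam1 e1) (h2 : Depth lam2 e2)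
    (hlt : e2 < e1) :
    ∃ f u, constantCoeff u ≠ 0 ∧ f = X ^ (e1 - e2) * u ∧ ∀ b, lam2 b = lam1 (f * b) := by
  set c := lam2 (X ^ e2) / lam1 (X ^ e1) with hc
  have hc0 : c ≠ 0 := div_ne_zero h2.2 h1.2
  let lam' : k⟦X⟧ →ₗ[k] k := lam2 - c • (lam1 ∘ₗ LinearMap.mulLeft k (X ^ (e1 - e2)))
  have hl : ∀ b, lam' b = lam2 b - c * lam1 (X ^ (e1 - e2) * b) := by
    intro b
    simp only [lam', LinearMap.sub_apply, LinearMap.smul_apply, LinearMap.comp_apply,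
      LinearMap.mulLeft_apply, smul_eq_mul]
  obtain ⟨f, ⟨z, hz⟩, hfb⟩ := dual_aux h1 e2 (by omega) lam' (fun b => by
    rw [hl, ← mul_assoc, ← pow_add, show e1 - e2 + e2 = e1 by omega, lam_top h1.1, lam_top h2.1, hc]
    have := h1.2
    field_simp
    ring)
  refine ⟨f + C c * X ^ (e1 - e2), C c + X * z, ?_, ?_, fun b => ?_⟩
  · rw [map_add, map_mul, constantCoeff_X, zero_mul, add_zero, constantCoeff_C]
    exact hc0
  · rw [hz, show e1 + 1 - e2 = (e1 - e2) + 1 by omega, pow_succ]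
    ring
  · have h3 := hfb b
    rw [hl] at h3
    rw [add_mul, map_add, ← h3, mul_assoc, ← smul_eq_C_mul, map_smul, smul_eq_mul]
    ring

variable {G : Type*} [AddCommGroup G] (A : Act G k)

theorem inv_dual {lam1 lam2 : k⟦X⟧ →ₗ[k] k} {e1 e2 : ℕ} (h1 : Depth lam1 e1) (h2 : Depth lam2 e2)
    (hlt : e2 < e1) (hi1 : ∀ x b, lam1 (A.g x b) = lam1 b) (hi2 : ∀ x b, lam2 (A.g x b) = lam2 b) :
    ∃ f u, constantCoeff u ≠ 0 ∧ f = X ^ (e1 - e2) * u ∧ ∀ x, X ^ (e1 + 1) ∣ A.g x f - f := by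
  obtain ⟨f, u, hu, hf, hb⟩ := dual h1 h2 hlt
  refine ⟨f, u, hu, hf, fun x => ?_⟩
  by_contra hnd
  obtain ⟨o, ho, v, hv, hy⟩ := exists_unit_of_not_dvd hnd
  obtain ⟨w, hw⟩ := (isUnit_of_ne hv).exists_right_inv
  have h3 : ∀ c, lam1 ((A.g x f - f) * c) = 0 := by
    intro c
    obtain ⟨b, rfl⟩ : ∃ b, A.g x b = c := ⟨A.g (-x) c, A.neg_right x c⟩
    rw [sub_mul, map_sub, ← map_mul, hi1, ← hb, ← hb, hi2, sub_self]
  have h5 := h3 (w * X ^ (e1 - o))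
  apply h1.2
  rw [hy] at h5
  have h6 : X ^ o * v * (w * X ^ (e1 - o)) = X ^ e1 := by
    calc X ^ o * v * (w * X ^ (e1 - o)) = (v * w) * (X ^ o * X ^ (e1 - o)) := by ring
      _ = X ^ e1 := by rw [hw, one_mul, ← pow_add, Nat.add_sub_cancel' ho]
  rw [h6] at h5
  exact h5

/-- the gap between the depths of two invariant functionals -/
theorem gap {p h : ℕ} [Fact p.Prime] (A : Act (Fin h → ℤ) k) {C : ℕ} (hC : Gr p A h C)
    {lam1 lam2 : k⟦X⟧ →ₗ[k] k} {e1 e2 : ℕ} (h1 : Depth lam1 e1) (h2 : Depth lam2 e2)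
    (hlt : e2 < e1) (hi1 : ∀ x b, lam1 (A.g x b) = lam1 b) (hi2 : ∀ x b, lam2 (A.g x b) = lam2 b)
    {j : ℕ} (hj : e1 - e2 + 1 ≤ p ^ (h * j)) : e1 + 1 ≤ C * j * p ^ (h * j) := by
  obtain ⟨f, u, hu, hf, hx⟩ := inv_dual A h1 h2 hlt hi1 hi2
  exact alm A hC (by omega) hu hf hx hj

end Pool.Agent.H2.RR
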