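import Pool.Agent.H2.RR.Defs

/-!
Interpolation: a monic polynomial of degree `n` cannot be too small at `n + 1` points.
-/

open PowerSeries

namespace Pool.Agent.H2.RR

variable {k : Type*} [Field k]

theorem prod_unit {ι : Type*} (s : Finset ι) (y : ι → k⟦X⟧) (d : ι → ℕ)
    (hd : ∀ i ∈ s, ¬ X ^ (d i + 1) ∣ y i) :
    ∃ e ≤ ∑ i ∈ s, d i, ∃ u : k⟦X⟧, constantCoeff u ≠ 0 ∧ ∏ i ∈ s, y i = X ^ e * u := by
  classical
  induction s using Finset.induction_on with
  | empty => exact ⟨0, by simp, 1, by simp, by simp⟩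
  | insert a s ha ih =>
    obtain ⟨e, he, u, hu, hp⟩ := ih (fun i hi => hd i (Finset.mem_insert_of_mem hi))
    obtain ⟨o, ho, v, hv, hy⟩ := exists_unit_of_not_dvd (hd a (Finset.mem_insert_self a s))
    refine ⟨o + e, ?_, v * u, ?_, ?_⟩
    · rw [Finset.sum_insert ha]
      omega
    · rw [map_mul]
      exact mul_ne_zero hv hu
    · rw [Finset.prod_insert ha, hp, hy, pow_add]
      ring

theorem intp {ι : Type*} [DecidableEq ι] (s : Finset ι) (x : ι → k⟦X⟧)
    (d : ι → ι → ℕ) (hd : ∀ i ∈ s, ∀ j ∈ s, i ≠ j → ¬ X ^ (d i j + 1) ∣ x i - x j)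
    (P : Polynomial k⟦X⟧) (hP : P.Monic) (hdeg : P.natDegree + 1 = s.card) (B : ℕ)
    (hB : ∀ i ∈ s, X ^ B ∣ P.eval (x i)) :
    ∃ i ∈ s, B ≤ ∑ j ∈ s.erase i, d i j := by
  by_contra hcon
  push Not at hcon
  set F := FractionRing k⟦X⟧ with hF
  set φ : k⟦X⟧ →+* F := algebraMap k⟦X⟧ F with hφ
  have hinj : Function.Injective φ := IsFractionRing.injective k⟦X⟧ F
  have hne : ∀ i ∈ s, ∀ j ∈ s, i ≠ j → x i - x j ≠ 0 := by
    intro i hi j hj hij h0
    apply hd i hi j hj hij
    rw [h0]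
    exact dvd_zero _
  have hio : Set.InjOn (fun i => φ (x i)) (s : Set ι) := by
    intro i hi j hj hij
    by_contra hne'
    apply hne i hi j hj hne'
    have := hinj hij
    rw [this, sub_self]
  have hPm : (P.map φ).Monic := hP.map φ
  have hnd : (P.map φ).natDegree = P.natDegree := hP.natDegree_map φ
  have hcard : (s.card : WithBot ℕ) = (P.map φ).degree + 1 := by
    rw [Polynomial.degree_eq_natDegree hPm.ne_zero, hnd, ← hdeg]
    push_cast
    rfl
  have key := Lagrange.leadingCoeff_eq_sum (s := s) (v := fun i => φ (x i)) hio hcard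
  rw [hPm.leadingCoeff] at key
  have hterm : ∀ i ∈ s, ∃ z : k⟦X⟧, (P.map φ).eval (φ (x i)) /
      ∏ j ∈ s.erase i, (φ (x i) - φ (x j)) = φ (X * z) := by
    intro i hi
    obtain ⟨e, he, u, hu, hp⟩ := prod_unit (s.erase i) (fun j => x i - x j) (fun j => d i j)
      (fun j hj => hd i hi j (Finset.mem_of_mem_erase hj) (Finset.ne_of_mem_erase hj).symm)
    obtain ⟨c, hc⟩ := hB i hi
    have hlt := hcon i hi
    obtain ⟨m, hm⟩ : ∃ m, B = e + 1 + m := ⟨B - (e + 1), by omega⟩
    obtain ⟨w, hw⟩ := (isUnit_of_ne hu).exists_right_inv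
    refine ⟨X ^ m * c * w, ?_⟩
    have h1 : (P.map φ).eval (φ (x i)) = φ (P.eval (x i)) := by
      rw [Polynomial.eval_map, Polynomial.eval₂_at_apply]
    have h2 : ∏ j ∈ s.erase i, (φ (x i) - φ (x j)) = φ (X ^ e * u) := by
      rw [← hp, map_prod]
      refine Finset.prod_congr rfl fun j _ => ?_
      rw [map_sub]
    rw [h1, h2, hc, div_eq_iff, ← map_mul]
    · congr 1
      rw [hm]
      calc (X : k⟦X⟧) ^ (e + 1 + m) * c = X ^ (e + 1 + m) * c * (u * w) := by rw [hw, mul_one]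
        _ = X * (X ^ m * c * w) * (X ^ e * u) := by ring
    · intro h0
      have h3 : X ^ e * u = 0 := hinj (by rw [h0, map_zero])
      rcases mul_eq_zero.mp h3 with h4 | h4
      · exact pow_ne_zero e X_ne_zero h4
      · rw [h4, map_zero] at hu
        exact hu rfl
  choose! z hz using hterm
  have h5 : (1 : F) = φ (X * ∑ i ∈ s, z i) := by
    rw [key, Finset.mul_sum, map_sum]
    exact Finset.sum_congr rfl hz
  have h6 : (1 : k⟦X⟧) = X * ∑ i ∈ s, z i := hinj (by rw [← h5, map_one])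
  have h7 := congrArg constantCoeff h6
  rw [map_one, map_mul, constantCoeff_X, zero_mul] at h7
  exact one_ne_zero h7

end Pool.Agent.H2.RR
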