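import Pool.Agent.H2.RR.Ram

/-!
# Theorem R, final form

`Z ^ (h + 1)` does not act on `k⟦X⟧` (`char k = p`) by commuting automorphisms `g X ≡ X mod X ^ 2` with
`ord (g X - X) ≤ C p ^ (h m)` whenever `g` is not a `p ^ (m + 1)`-th power.
-/

open PowerSeries
open Pool.Agent.H13.CH (Wild)

namespace Pool.Agent.H2.RR

variable {k : Type*} [Field k]

/-- the action of the product from an action of `Z ^ (h + 1)` -/
noncomputable def act {h : ℕ} (σ : Multiplicative (Fin (h + 1) → ℤ) →* (k⟦X⟧ ≃ₐ[k] k⟦X⟧))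
    (hw : ∀ x, (X : k⟦X⟧) ^ 2 ∣ σ x X - X) : Act ((Fin h → ℤ) × ℤ) k where
  g x := (σ (Multiplicative.ofAdd (Fin.cons x.2 x.1 : Fin (h + 1) → ℤ))).toAlgHom
  zero := by
    have h1 : (Fin.cons (0 : (Fin h → ℤ) × ℤ).2 (0 : (Fin h → ℤ) × ℤ).1 : Fin (h + 1) → ℤ) = 0 := by
      funext i
      refine Fin.cases ?_ (fun j => ?_) i <;> simp
    rw [h1, ofAdd_zero, map_one]
    rfl
  add a b := by
    have h1 : (Fin.cons (a + b).2 (a + b).1 : Fin (h + 1) → ℤ) =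
        Fin.cons a.2 a.1 + Fin.cons b.2 b.1 := by
      funext i
      refine Fin.cases ?_ (fun j => ?_) i <;> simp
    rw [h1, ofAdd_add, map_mul]
    rfl
  wild a := hw _

theorem ramR (k : Type*) [Field k] (p : ℕ) [Fact p.Prime] [CharP k p] (h : ℕ)
    (σ : Multiplicative (Fin (h + 1) → ℤ) →* (k⟦X⟧ ≃ₐ[k] k⟦X⟧))
    (hw : ∀ x, (X : k⟦X⟧) ^ 2 ∣ σ x X - X) (C : ℕ)
    (hC : ∀ (x : Multiplicative (Fin (h + 1) → ℤ)) (m : ℕ),
      (¬ ∀ i, (p : ℤ) ^ (m + 1) ∣ x.toAdd i) → ¬ X ^ (C * p ^ (h * m) + 1) ∣ σ x X - X) :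
    False := by
  have hp : p.Prime := Fact.out
  have hC' : ∀ (x : (Fin h → ℤ) × ℤ) (m : ℕ),
      ¬ ((∀ i, ((p ^ (m + 1) : ℕ) : ℤ) ∣ x.1 i) ∧ ((p ^ (m + 1) : ℕ) : ℤ) ∣ x.2) →
      ¬ X ^ (C * p ^ (h * m) + 1) ∣ (act σ hw).g x X - X := by
    intro x m hx
    refine hC (Multiplicative.ofAdd (Fin.cons x.2 x.1 : Fin (h + 1) → ℤ)) m ?_
    intro hcon
    apply hx
    refine ⟨fun i => ?_, ?_⟩
    · have := hcon i.succ
      rw [toAdd_ofAdd, Fin.cons_succ] at this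
      push_cast
      exact this
    · have := hcon 0
      rw [toAdd_ofAdd, Fin.cons_zero] at this
      push_cast
      exact this
  rcases Nat.eq_zero_or_pos h with h0 | h0
  · subst h0
    set A := act σ hw
    have h1 : C + 1 ≤ p ^ (C + 1) := (Nat.lt_pow_self hp.one_lt).le
    have h2 := smul_mem_G0 p A h1 ((0 : Fin 0 → ℤ), (1 : ℤ))
    rw [mem_G0] at h2
    refine hC' ((p ^ (C + 1)) • ((0 : Fin 0 → ℤ), (1 : ℤ))) (C + 1) ?_ ?_
    · rintro ⟨_, h3⟩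
      have h4 : ((p ^ (C + 1)) • ((0 : Fin 0 → ℤ), (1 : ℤ))).2 = ((p ^ (C + 1) : ℕ) : ℤ) := by
        change (p ^ (C + 1)) • (1 : ℤ) = _
        rw [nsmul_eq_mul, mul_one]
      rw [h4, Int.natCast_dvd_natCast] at h3
      have h5 := (Nat.pow_dvd_pow_iff_le_right hp.one_lt).mp h3
      omega
    · rw [zero_mul, pow_zero, mul_one]
      exact h2
  · exact ram_pair p h0 (act σ hw) C hC'

end Pool.Agent.H2.RR
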