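import Pool.Agent.H2.RR.Dual

/-!
The missing exponents: generators of `k⟦X⟧ / X ^ N` modulo the augmentation ideal, and their number.
-/

open PowerSeries
open Pool.Agent.H13.CH (Wild)

namespace Pool.Agent.H2.RR

variable {k : Type*} [Field k]

/-- the series divisible by `X ^ N` -/
def Dv (k : Type*) [Field k] (N : ℕ) : Submodule k k⟦X⟧ where
  carrier := {f | X ^ N ∣ f}
  add_mem' := fun h h' => dvd_add h h'
  zero_mem' := dvd_zero _
  smul_mem' := fun c f h => by
    rw [smul_eq_C_mul]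
    exact Dvd.dvd.mul_left h _

theorem mem_Dv {N : ℕ} {f : k⟦X⟧} : f ∈ Dv k N ↔ X ^ N ∣ f := Iff.rfl

variable {G : Type*} [AddCommGroup G] (A : Act G k)

/-- the augmentation part -/
noncomputable def Wm (N : ℕ) : Submodule k k⟦X⟧ :=
  Submodule.span k {y | ∃ x b, y = A.g x b - b} ⊔ Dv k N

open Classical in
/-- missing exponents -/
noncomputable def Mis (N : ℕ) : Finset ℕ :=
  (Finset.range N).filter fun e => ∀ y ∈ Wm A N, X ^ e ∣ y → X ^ (e + 1) ∣ y

theorem mem_Mis {N e : ℕ} : e ∈ Mis A N ↔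
    e < N ∧ ∀ y ∈ Wm A N, X ^ e ∣ y → X ^ (e + 1) ∣ y := by
  classical
  unfold Mis
  rw [Finset.mem_filter, Finset.mem_range]

theorem gen_W (N : ℕ) (b : k⟦X⟧) : ∃ c : ℕ → k,
    b - ∑ e ∈ Mis A N, c e • (X : k⟦X⟧) ^ e ∈ Wm A N := by
  classical
  have key : ∀ J ≤ N, ∃ c : ℕ → k, ∃ w ∈ Wm A N,
      X ^ J ∣ b - ∑ e ∈ Mis A N, c e • (X : k⟦X⟧) ^ e - w := by
    intro J hJ
    induction J with
    | zero => exact ⟨0, 0, Submodule.zero_mem _, by rw [pow_zero]; exact one_dvd _⟩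
    | succ J ih =>
      obtain ⟨c, w, hw, r, hr⟩ := ih (by omega)
      obtain ⟨r', hr'⟩ := eq_C_add r
      set a := constantCoeff r with ha
      by_cases hm : J ∈ Mis A N
      · refine ⟨fun e => c e + if e = J then a else 0, w, hw, r', ?_⟩
        have h1 : ∑ e ∈ Mis A N, (c e + if e = J then a else 0) • (X : k⟦X⟧) ^ e =
            ∑ e ∈ Mis A N, c e • (X : k⟦X⟧) ^ e + a • X ^ J := by
          simp_rw [add_smul, Finset.sum_add_distrib, ite_smul, zero_smul]
          rw [Finset.sum_ite_eq' (Mis A N) J (fun e => a • (X : k⟦X⟧) ^ e), if_pos hm]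
        rw [h1, smul_eq_C_mul, pow_succ]
        rw [hr'] at hr
        linear_combination hr
      · rw [mem_Mis] at hm
        push Not at hm
        obtain ⟨y, hy, ⟨v, hv⟩, hyn⟩ := hm (by omega)
        have hv0 : constantCoeff v ≠ 0 := by
          intro h0
          apply hyn
          rw [hv, pow_succ]
          exact mul_dvd_mul (dvd_refl _) (X_dvd_iff.mpr h0)
        obtain ⟨v', hv'⟩ := eq_C_add v
        refine ⟨c, w + (a / constantCoeff v) • y,
          Submodule.add_mem _ hw (Submodule.smul_mem _ _ hy), r' - C (a / constantCoeff v) * v', ?_⟩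
        have h2 : (C (a / constantCoeff v) : k⟦X⟧) * C (constantCoeff v) = C a := by
          rw [← map_mul, div_mul_cancel₀ _ hv0]
        rw [smul_eq_C_mul, pow_succ, hv]
        rw [hr'] at hr
        have hv'' : (X : k⟦X⟧) ^ J * v = X ^ J * (C (constantCoeff v) + X * v') := by
          rw [← hv']
        linear_combination hr - C (a / constantCoeff v) * hv'' - X ^ J * h2
  obtain ⟨c, w, hw, hd⟩ := key N le_rfl
  refine ⟨c, ?_⟩
  have h1 : b - ∑ e ∈ Mis A N, c e • (X : k⟦X⟧) ^ e =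
      (b - ∑ e ∈ Mis A N, c e • (X : k⟦X⟧) ^ e - w) + w := by ring
  rw [h1]
  refine Submodule.add_mem _ ?_ hw
  exact Submodule.mem_sup_right (mem_Dv.mpr hd)

theorem exists_lam {N e : ℕ} (he : e ∈ Mis A N) :
    ∃ lam : k⟦X⟧ →ₗ[k] k, Depth lam e ∧ ∀ x b, lam (A.g x b) = lam b := by
  rw [mem_Mis] at he
  obtain ⟨_, he⟩ := he
  have hnot : (X : k⟦X⟧) ^ e ∉ Wm A N ⊔ Dv k (e + 1) := by
    intro hmem
    obtain ⟨y, hy, z, hz, hyz⟩ := Submodule.mem_sup.mp hmem
    rw [mem_Dv] at hz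
    have h1 : X ^ e ∣ y := by
      have h2 : y = X ^ e - z := by rw [← hyz]; ring
      rw [h2]
      exact dvd_sub (dvd_refl _) (dvd_trans (pow_dvd_pow X (Nat.le_succ e)) hz)
    have h3 := he y hy h1
    have h4 : X ^ (e + 1) ∣ (X : k⟦X⟧) ^ e * 1 := by
      rw [mul_one, ← hyz]
      exact dvd_add h3 hz
    exact not_dvd_of_unit (by rw [map_one]; exact one_ne_zero) h4
  obtain ⟨lam, hl1, hl2⟩ := Submodule.exists_dual_map_eq_bot_of_notMem hnot inferInstance
  have hker : ∀ y ∈ Wm A N ⊔ Dv k (e + 1), lam y = 0 := by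
    intro y hy
    have := Submodule.mem_map_of_mem (f := lam) hy
    rw [hl2, Submodule.mem_bot] at this
    exact this
  refine ⟨lam, ⟨fun b => ?_, hl1⟩, fun x b => ?_⟩
  · exact hker _ (Submodule.mem_sup_right (mem_Dv.mpr (dvd_mul_right _ _)))
  · have h1 := hker (A.g x b - b) (Submodule.mem_sup_left (Submodule.mem_sup_left
      (Submodule.subset_span ⟨x, b, rfl⟩)))
    rw [map_sub, sub_eq_zero] at h1
    exact h1

/-- counting -/
theorem card_le {S : Finset ℕ} {Q K : ℕ} (hQ : 0 < Q) (hK : ∀ e ∈ S, e + 1 < 2 ^ K)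
    (h : ∀ e1 ∈ S, ∀ e2 ∈ S, e2 < e1 → e1 + 1 ≤ Q * (e1 - e2)) : S.card ≤ 2 * Q * K := by
  classical
  have h1 : S ⊆ (Finset.range K).biUnion
      (fun i => S.filter fun e => 2 ^ i ≤ e + 1 ∧ e + 1 < 2 ^ (i + 1)) := by
    intro e he
    rw [Finset.mem_biUnion]
    refine ⟨Nat.log 2 (e + 1), ?_, ?_⟩
    · rw [Finset.mem_range]
      exact Nat.log_lt_of_lt_pow (by omega) (hK e he)
    · rw [Finset.mem_filter]
      exact ⟨he, Nat.pow_log_le_self 2 (by omega), Nat.lt_pow_succ_log_self (by omega) _⟩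
  refine le_trans (Finset.card_le_card h1) (le_trans Finset.card_biUnion_le ?_)
  have h2 : ∀ i ∈ Finset.range K,
      (S.filter fun e => 2 ^ i ≤ e + 1 ∧ e + 1 < 2 ^ (i + 1)).card ≤ 2 * Q := by
    intro i _
    conv_rhs => rw [← Finset.card_range (2 * Q)]
    refine Finset.card_le_card_of_injOn (fun e => Q * (e + 1) / 2 ^ i) ?_ ?_
    · intro e he
      rw [Finset.mem_coe, Finset.mem_filter] at he
      rw [Finset.mem_coe, Finset.mem_range]
      apply Nat.div_lt_of_lt_mul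
      have : Q * (e + 1) < Q * 2 ^ (i + 1) := Nat.mul_lt_mul_of_pos_left he.2.2 hQ
      calc Q * (e + 1) < Q * 2 ^ (i + 1) := this
        _ = 2 ^ i * (2 * Q) := by rw [pow_succ]; ring
    · have aux : ∀ e1 ∈ S.filter (fun e => 2 ^ i ≤ e + 1 ∧ e + 1 < 2 ^ (i + 1)),
          ∀ e2 ∈ S.filter (fun e => 2 ^ i ≤ e + 1 ∧ e + 1 < 2 ^ (i + 1)), e2 < e1 →
          Q * (e1 + 1) / 2 ^ i ≠ Q * (e2 + 1) / 2 ^ i := by
        intro e1 h1 e2 h2 hlt heq
        rw [Finset.mem_filter] at h1 h2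
        have h3 := h e1 h1.1 e2 h2.1 hlt
        have h4 : Q * (e2 + 1) + 2 ^ i ≤ Q * (e1 + 1) := by
          have h5 : Q * (e1 + 1) = Q * (e2 + 1) + Q * (e1 - e2) := by
            rw [← Nat.mul_add]
            congr 1
            omega
          have h6 := h1.2.1
          omega
        have h7 : Q * (e2 + 1) / 2 ^ i + 1 ≤ Q * (e1 + 1) / 2 ^ i := by
          rw [← Nat.add_div_right _ (pow_pos (by norm_num : 0 < 2) i)]
          exact Nat.div_le_div_right h4
        omega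
      intro e1 h1 e2 h2 heq
      rw [Finset.mem_coe] at h1 h2
      rcases lt_trichotomy e1 e2 with h | h | h
      · exact absurd heq.symm (aux e2 h2 e1 h1 h)
      · exact h
      · exact absurd heq (aux e1 h1 e2 h2 h)
  calc _ ≤ ∑ _i ∈ Finset.range K, 2 * Q := Finset.sum_le_sum h2
    _ = 2 * Q * K := by rw [Finset.sum_const, Finset.card_range, smul_eq_mul]; ring

/-- the number of missing exponents is polylogarithmic -/
theorem card_Mis {p h : ℕ} [Fact p.Prime] (hh : 1 ≤ h) (A : Act (Fin h → ℤ) k) {C : ℕ}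
    (hC0 : 0 < C) (hC : Gr p A h C) {N L : ℕ} (hN : N ≤ p ^ L) :
    (Mis A N).card ≤ 2 * (C * (L + 1) * p ^ h) * (p * L + 1) := by
  classical
  have hp : 0 < p := (Fact.out : p.Prime).pos
  have hp1 : 1 < p := (Fact.out : p.Prime).one_lt
  refine card_le (Q := C * (L + 1) * p ^ h) (K := p * L + 1) (by positivity) ?_ ?_
  · intro e he
    rw [mem_Mis] at he
    have h1 : p ^ L ≤ 2 ^ (p * L) := by
      rw [pow_mul]
      exact Nat.pow_le_pow_left Nat.lt_two_pow_self.le L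
    have h2 : 2 ^ (p * L) < 2 ^ (p * L + 1) := Nat.pow_lt_pow_right (by norm_num) (Nat.lt_succ_self _)
    omega
  · intro e1 h1 e2 h2 hlt
    obtain ⟨lam1, hd1, hi1⟩ := exists_lam A h1
    obtain ⟨lam2, hd2, hi2⟩ := exists_lam A h2
    have hex : ∃ j, e1 - e2 + 1 ≤ p ^ (h * j) := by
      refine ⟨e1 - e2 + 1, ?_⟩
      have h3 : e1 - e2 + 1 < p ^ (e1 - e2 + 1) := Nat.lt_pow_self hp1
      have h4 : p ^ (e1 - e2 + 1) ≤ p ^ (h * (e1 - e2 + 1)) :=
        Nat.pow_le_pow_right hp (Nat.le_mul_of_pos_left _ hh)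
      omega
    obtain ⟨j, hj, hmin⟩ : ∃ j, e1 - e2 + 1 ≤ p ^ (h * j) ∧
        ∀ i < j, ¬ e1 - e2 + 1 ≤ p ^ (h * i) :=
      ⟨Nat.find hex, Nat.find_spec hex, fun i hi => Nat.find_min hex hi⟩
    have h5 := gap A hC hd1 hd2 hlt hi1 hi2 hj
    rcases j with _ | j
    · rw [mul_zero, pow_zero] at hj
      omega
    have h6 := hmin j (Nat.lt_succ_self j)
    push Not at h6
    have h7 : p ^ (h * j) ≤ e1 - e2 := by omega
    have h8 : j ≤ L := by
      by_contra hcon
      push Not at hcon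
      have h9 : p ^ L < p ^ (h * j) :=
        Nat.pow_lt_pow_right hp1 (lt_of_lt_of_le hcon (Nat.le_mul_of_pos_left _ hh))
      rw [mem_Mis] at h1
      omega
    calc e1 + 1 ≤ C * (j + 1) * p ^ (h * (j + 1)) := h5
      _ = C * (j + 1) * p ^ h * p ^ (h * j) := by
          rw [show h * (j + 1) = h + h * j by ring, pow_add]
          ring
      _ ≤ C * (L + 1) * p ^ h * (e1 - e2) := by
        refine Nat.mul_le_mul (Nat.mul_le_mul_right _ (Nat.mul_le_mul_left _ (by omega))) h7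

end Pool.Agent.H2.RR
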