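import Pool.Agent.H2.RR.Defs

/-!
Separation: a linear combination of the automorphisms which is zero modulo `X ^ (E + 1)` has sum zero over
each coset of `G0 = {x : g x X ≡ X mod X ^ N0}`.
-/

open PowerSeries
open Pool.Agent.H13.CH (Wild)

namespace Pool.Agent.H2.RR

variable {k : Type*} [Field k]

open Classical in
/-- the order -/
noncomputable def od (f : k⟦X⟧) : ℕ := if h : ∃ n, coeff n f ≠ 0 then Nat.find h else 0

theorem od_eq {o : ℕ} {u f : k⟦X⟧} (hu : constantCoeff u ≠ 0) (hf : f = X ^ o * u) : od f = o := by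
  classical
  have h1 : coeff o f ≠ 0 := by
    have h3 := coeff_X_pow_mul u o 0
    rw [zero_add, ← hf, coeff_zero_eq_constantCoeff_apply] at h3
    rw [h3]
    exact hu
  have hex : ∃ n, coeff n f ≠ 0 := ⟨o, h1⟩
  unfold od
  rw [dif_pos hex]
  apply le_antisymm (Nat.find_min' hex h1)
  by_contra hcon
  push Not at hcon
  apply Nat.find_spec hex
  have h2 : X ^ o ∣ f := ⟨u, hf⟩
  rw [X_pow_dvd_iff] at h2
  exact h2 _ hcon

variable {G : Type*} [AddCommGroup G] (A : Act G k)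

/-- the subgroup of the elements which are `1` modulo `X ^ N0` -/
def G0 (N0 : ℕ) : AddSubgroup G where
  carrier := {x | X ^ N0 ∣ A.g x X - X}
  add_mem' := by
    intro x y hx hy
    have h1 : A.g (x + y) X - X = A.g x (A.g y X - X) + (A.g x X - X) := by
      rw [map_sub, A.add_apply]
      ring
    change X ^ N0 ∣ A.g (x + y) X - X
    rw [h1]
    exact dvd_add ((A.wild x).dvd_apply hy) hx
  zero_mem' := by
    change X ^ N0 ∣ A.g 0 X - X
    rw [A.zero_apply, sub_self]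
    exact dvd_zero _
  neg_mem' := by
    intro x hx
    change X ^ N0 ∣ A.g (-x) X - X
    rw [← A.dvd_iff x, map_sub, A.neg_right, ← dvd_neg, neg_sub]
    exact hx

theorem mem_G0 {N0 : ℕ} {x : G} : x ∈ G0 A N0 ↔ X ^ N0 ∣ A.g x X - X := Iff.rfl

theorem unit_apply {φ : k⟦X⟧ →ₐ[k] k⟦X⟧} (hφ : Wild φ) {u : k⟦X⟧} (hu : constantCoeff u ≠ 0)
    (o : ℕ) : ∃ v : k⟦X⟧, constantCoeff v ≠ 0 ∧ φ (X ^ o * u) = X ^ o * v := by
  obtain ⟨y, hy⟩ := hφ
  have h1 : φ X = X * (1 + X * y) := by linear_combination hy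
  refine ⟨(1 + X * y) ^ o * φ u, ?_, ?_⟩
  · rw [map_mul, map_pow, map_add, map_mul, constantCoeff_X, zero_mul, add_zero, map_one, one_pow,
      one_mul]
    have h2 : IsUnit (φ u) := (isUnit_of_ne hu).map φ
    rw [isUnit_iff_constantCoeff] at h2
    exact h2.ne_zero
  · rw [map_mul, map_pow, h1, mul_pow]
    ring

theorem exists_order {N0 : ℕ} {x : G} (hx : x ∉ G0 A N0) :
    ∃ o < N0, ∃ u : k⟦X⟧, constantCoeff u ≠ 0 ∧ A.g x X - X = X ^ o * u := by
  rw [mem_G0] at hx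
  rcases N0 with _ | n
  · exfalso
    apply hx
    rw [pow_zero]
    exact one_dvd _
  · obtain ⟨o, ho, u, hu, h⟩ := exists_unit_of_not_dvd hx
    exact ⟨o, by omega, u, hu, h⟩

/-- the order of `g x X - X` on classes -/
noncomputable def dl (N0 : ℕ) (q : G ⧸ G0 A N0) : ℕ := od (A.g q.out X - X)

theorem dl_spec {N0 : ℕ} {x : G} (hx : x ∉ G0 A N0) :
    dl A N0 (x : G ⧸ G0 A N0) < N0 ∧
      ∃ u : k⟦X⟧, constantCoeff u ≠ 0 ∧ A.g x X - X = X ^ dl A N0 (x : G ⧸ G0 A N0) * u := by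
  obtain ⟨o, ho, u, hu, h⟩ := exists_order A hx
  set y := (x : G ⧸ G0 A N0).out with hy
  have h1 : -y + x ∈ G0 A N0 := by
    rw [← QuotientAddGroup.eq, hy, QuotientAddGroup.out_eq']
  have h2 : X ^ N0 ∣ A.g x X - A.g y X := by
    rw [A.dvd_sub_iff, show x - y = -y + x by abel]
    exact h1
  obtain ⟨w, hw⟩ := h2
  have h3 : A.g y X - X = X ^ o * (u - X ^ (N0 - o) * w) := by
    have h4 : (X : k⟦X⟧) ^ N0 = X ^ o * X ^ (N0 - o) := by
      rw [← pow_add]
      congr 1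
      omega
    rw [h4] at hw
    linear_combination h - hw
  have h5 : constantCoeff (u - X ^ (N0 - o) * w) ≠ 0 := by
    rw [map_sub, map_mul, map_pow, constantCoeff_X, zero_pow (by omega), zero_mul, sub_zero]
    exact hu
  have h6 : dl A N0 (x : G ⧸ G0 A N0) = o := od_eq h5 h3
  rw [h6]
  exact ⟨ho, u, hu, h⟩

theorem sub_spec {N0 : ℕ} {x y : G} (hxy : (x : G ⧸ G0 A N0) ≠ (y : G ⧸ G0 A N0)) :
    ∃ u : k⟦X⟧, constantCoeff u ≠ 0 ∧
      A.g x X - A.g y X = X ^ dl A N0 ((x : G ⧸ G0 A N0) - (y : G ⧸ G0 A N0)) * u := by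
  have h1 : x - y ∉ G0 A N0 := by
    intro h
    apply hxy
    rw [eq_comm, QuotientAddGroup.eq]
    rw [sub_eq_add_neg, add_comm] at h
    exact h
  obtain ⟨_, u, hu, h⟩ := dl_spec A h1
  obtain ⟨v, hv, hv'⟩ := unit_apply (A.wild y) hu (dl A N0 ((x - y : G) : G ⧸ G0 A N0))
  refine ⟨v, hv, ?_⟩
  rw [A.sub_eq, h, hv']
  rfl

theorem prod_add {ι : Type*} (s : Finset ι) (u w : ι → k⟦X⟧) :
    ∃ z, ∏ i ∈ s, (u i + X * w i) = ∏ i ∈ s, u i + X * z := by
  classical
  induction s using Finset.induction_on with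
  | empty => exact ⟨0, by simp⟩
  | insert a s ha ih =>
    obtain ⟨z, hz⟩ := ih
    refine ⟨w a * ∏ i ∈ s, u i + u a * z + X * w a * z, ?_⟩
    rw [Finset.prod_insert ha, Finset.prod_insert ha, hz]
    ring

variable {N0 : ℕ} [Fintype (G ⧸ G0 A N0)]

open Classical in
/-- the exponent -/
noncomputable def Eb (N0 : ℕ) [Fintype (G ⧸ G0 A N0)] : ℕ :=
  ∑ q ∈ (Finset.univ : Finset (G ⧸ G0 A N0)).erase 0, dl A N0 q

open Classical in
/-- the separating polynomial -/
noncomputable def Rp (N0 : ℕ) [Fintype (G ⧸ G0 A N0)] : Polynomial k⟦X⟧ :=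
  ∏ q ∈ (Finset.univ : Finset (G ⧸ G0 A N0)).erase 0,
    (Polynomial.X - Polynomial.C (A.g q.out X))

open Classical in
theorem Rp_eval (z : k⟦X⟧) : (Rp A N0).eval z =
    ∏ q ∈ (Finset.univ : Finset (G ⧸ G0 A N0)).erase 0, (z - A.g q.out X) := by
  unfold Rp
  rw [Polynomial.eval_prod]
  refine Finset.prod_congr rfl fun q _ => ?_
  rw [Polynomial.eval_sub, Polynomial.eval_X, Polynomial.eval_C]

omit [Fintype (G ⧸ G0 A N0)] in
theorem out_coe (q : G ⧸ G0 A N0) : ((q.out : G) : G ⧸ G0 A N0) = q := QuotientAddGroup.out_eq' q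

theorem Eb_le : Eb A N0 ≤ N0 * Fintype.card (G ⧸ G0 A N0) := by
  classical
  unfold Eb
  calc ∑ q ∈ (Finset.univ : Finset (G ⧸ G0 A N0)).erase 0, dl A N0 q
      ≤ ∑ _q ∈ (Finset.univ : Finset (G ⧸ G0 A N0)).erase 0, N0 := by
        refine Finset.sum_le_sum fun q hq => ?_
        have h1 : q.out ∉ G0 A N0 := by
          intro h
          rw [← QuotientAddGroup.eq_zero_iff, out_coe] at h
          exact Finset.ne_of_mem_erase hq h
        have h2 := (dl_spec A h1).1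
        rw [out_coe] at h2
        exact h2.le
    _ ≤ ∑ _q ∈ (Finset.univ : Finset (G ⧸ G0 A N0)), N0 :=
        Finset.sum_le_sum_of_subset (Finset.erase_subset _ _)
    _ = N0 * Fintype.card (G ⧸ G0 A N0) := by
        rw [Finset.sum_const, smul_eq_mul, Finset.card_univ, mul_comm]

theorem eval_zero : ∃ u : k⟦X⟧, constantCoeff u ≠ 0 ∧ (Rp A N0).eval X = X ^ Eb A N0 * u ∧
    ∀ x ∈ G0 A N0, X ^ (Eb A N0 + 1) ∣ (Rp A N0).eval (A.g x X) - (Rp A N0).eval X := by
  classical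
  have h0 : ∀ q ∈ (Finset.univ : Finset (G ⧸ G0 A N0)).erase 0, ∃ u : k⟦X⟧,
      constantCoeff u ≠ 0 ∧ X - A.g q.out X = X ^ dl A N0 q * u := by
    intro q hq
    have h1 : q.out ∉ G0 A N0 := by
      intro h
      rw [← QuotientAddGroup.eq_zero_iff, out_coe] at h
      exact Finset.ne_of_mem_erase hq h
    obtain ⟨_, u, hu, h⟩ := dl_spec A h1
    rw [out_coe] at h
    refine ⟨-u, by rw [map_neg]; exact neg_ne_zero.mpr hu, ?_⟩
    linear_combination -h
  choose! u hu hu' using h0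
  have hE : ∏ q ∈ (Finset.univ : Finset (G ⧸ G0 A N0)).erase 0, X ^ dl A N0 q =
      (X : k⟦X⟧) ^ Eb A N0 := by
    rw [Finset.prod_pow_eq_pow_sum]
    rfl
  refine ⟨∏ q ∈ (Finset.univ : Finset (G ⧸ G0 A N0)).erase 0, u q, ?_, ?_, ?_⟩
  · rw [map_prod]
    exact Finset.prod_ne_zero_iff.mpr hu
  · rw [Rp_eval, Finset.prod_congr rfl hu', Finset.prod_mul_distrib, hE]
  · intro x hx
    obtain ⟨w, hw⟩ := (mem_G0 A).mp hx
    have h2 : ∀ q ∈ (Finset.univ : Finset (G ⧸ G0 A N0)).erase 0,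
        A.g x X - A.g q.out X = X ^ dl A N0 q * (u q + X * (X ^ (N0 - dl A N0 q - 1) * w)) := by
      intro q hq
      have h1 : q.out ∉ G0 A N0 := by
        intro h
        rw [← QuotientAddGroup.eq_zero_iff, out_coe] at h
        exact Finset.ne_of_mem_erase hq h
      have h3 := (dl_spec A h1).1
      rw [out_coe] at h3
      have h4 : (X : k⟦X⟧) ^ N0 = X ^ dl A N0 q * (X * X ^ (N0 - dl A N0 q - 1)) := by
        rw [← pow_succ', ← pow_add]
        congr 1
        omega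
      rw [h4] at hw
      linear_combination hu' q hq + hw
    obtain ⟨z, hz⟩ := prod_add ((Finset.univ : Finset (G ⧸ G0 A N0)).erase 0) u
      (fun q => X ^ (N0 - dl A N0 q - 1) * w)
    rw [Rp_eval, Rp_eval, Finset.prod_congr rfl h2, Finset.prod_congr rfl hu',
      Finset.prod_mul_distrib, Finset.prod_mul_distrib, hE, hz, pow_succ]
    exact ⟨z, by ring⟩

theorem eval_other {x : G} (hx : x ∉ G0 A N0) : X ^ (Eb A N0 + 1) ∣ (Rp A N0).eval (A.g x X) := by
  classical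
  set q1 : G ⧸ G0 A N0 := (x : G ⧸ G0 A N0) with hq1
  have hq0 : q1 ≠ 0 := by
    intro h
    rw [hq1, QuotientAddGroup.eq_zero_iff] at h
    exact hx h
  have hmem : q1 ∈ (Finset.univ : Finset (G ⧸ G0 A N0)).erase 0 :=
    Finset.mem_erase.mpr ⟨hq0, Finset.mem_univ _⟩
  rw [Rp_eval, ← Finset.mul_prod_erase _ _ hmem]
  have h1 : X ^ N0 ∣ A.g x X - A.g q1.out X := by
    rw [A.dvd_sub_iff]
    have h2 : -q1.out + x ∈ G0 A N0 := by
      rw [← QuotientAddGroup.eq, out_coe]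
    rw [show x - q1.out = -q1.out + x by abel]
    exact h2
  have h3 : X ^ (∑ q ∈ ((Finset.univ : Finset (G ⧸ G0 A N0)).erase 0).erase q1, dl A N0 (q1 - q)) ∣
      ∏ q ∈ ((Finset.univ : Finset (G ⧸ G0 A N0)).erase 0).erase q1, (A.g x X - A.g q.out X) := by
    rw [← Finset.prod_pow_eq_pow_sum]
    refine Finset.prod_dvd_prod_of_dvd _ _ fun q hq => ?_
    have hne : (x : G ⧸ G0 A N0) ≠ ((q.out : G) : G ⧸ G0 A N0) := by
      rw [out_coe]
      exact (Finset.ne_of_mem_erase hq).symm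
    obtain ⟨u, _, h⟩ := sub_spec A hne
    rw [h, out_coe]
    exact Dvd.intro _ rfl
  refine dvd_trans (pow_dvd_pow X ?_) (by rw [pow_add]; exact mul_dvd_mul h1 h3)
  have h4 : ∑ q ∈ (Finset.univ : Finset (G ⧸ G0 A N0)).erase q1, dl A N0 (q1 - q) = Eb A N0 := by
    unfold Eb
    refine Finset.sum_bij' (fun q _ => q1 - q) (fun q _ => q1 - q) ?_ ?_ ?_ ?_ ?_
    · intro q hq
      refine Finset.mem_erase.mpr ⟨?_, Finset.mem_univ _⟩
      intro h
      exact Finset.ne_of_mem_erase hq (sub_eq_zero.mp h).symm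
    · intro q hq
      refine Finset.mem_erase.mpr ⟨?_, Finset.mem_univ _⟩
      intro h
      apply Finset.ne_of_mem_erase hq
      rw [sub_eq_self] at h
      exact h
    · intro q _
      abel
    · intro q _
      abel
    · intro q _
      rfl
  have h5 : (0 : G ⧸ G0 A N0) ∈ (Finset.univ : Finset (G ⧸ G0 A N0)).erase q1 :=
    Finset.mem_erase.mpr ⟨hq0.symm, Finset.mem_univ _⟩
  have h7 := Finset.add_sum_erase _ (fun q => dl A N0 (q1 - q)) h5
  rw [h4, Finset.erase_right_comm] at h7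
  simp only [sub_zero] at h7
  have h6 := (dl_spec A hx).1
  rw [← hq1] at h6
  omega

theorem sep {ι : Type*} (S : Finset ι) (pt : ι → G) (c : ι → k)
    (h : ∀ f, X ^ (Eb A N0 + 1) ∣ ∑ x ∈ S, c x • A.g (pt x) f) (y : G)
    [DecidablePred fun x : ι => pt x - y ∈ G0 A N0] :
    ∑ x ∈ S.filter (fun x => pt x - y ∈ G0 A N0), c x = 0 := by
  classical
  obtain ⟨u, hu, hR, hcg⟩ := eval_zero A (N0 := N0)
  have h1 : ∀ f, X ^ (Eb A N0 + 1) ∣ ∑ x ∈ S, c x • A.g (pt x - y) f := by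
    intro f
    have h2 := (A.wild (-y)).dvd_apply (h f)
    rw [map_sum] at h2
    refine dvd_trans h2 (dvd_of_eq (Finset.sum_congr rfl fun x _ => ?_))
    rw [map_smul, ← A.add_apply, show -y + pt x = pt x - y by abel]
  have h2 : X ^ (Eb A N0 + 1) ∣ ∑ x ∈ S, c x • (Rp A N0).eval (A.g (pt x - y) X) := by
    have h3 : ∑ x ∈ S, c x • (Rp A N0).eval (A.g (pt x - y) X) =
        ∑ l ∈ (Rp A N0).support, (Rp A N0).coeff l *
          ∑ x ∈ S, c x • A.g (pt x - y) (X ^ l) := by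
      simp_rw [Finset.mul_sum]
      rw [Finset.sum_comm]
      refine Finset.sum_congr rfl fun x _ => ?_
      rw [Polynomial.eval_eq_sum, Polynomial.sum_def, Finset.smul_sum]
      refine Finset.sum_congr rfl fun l _ => ?_
      rw [map_pow, mul_smul_comm]
    rw [h3]
    exact Finset.dvd_sum fun l _ => Dvd.dvd.mul_left (h1 _) _
  have h4 : ∑ x ∈ S, c x • (Rp A N0).eval (A.g (pt x - y) X) =
      (∑ x ∈ S.filter (fun x => pt x - y ∈ G0 A N0), c x) • (Rp A N0).eval X +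
      (∑ x ∈ S.filter (fun x => pt x - y ∈ G0 A N0),
        c x • ((Rp A N0).eval (A.g (pt x - y) X) - (Rp A N0).eval X) +
      ∑ x ∈ S.filter (fun x => ¬ pt x - y ∈ G0 A N0),
        c x • (Rp A N0).eval (A.g (pt x - y) X)) := by
    rw [← Finset.sum_filter_add_sum_filter_not S (fun x => pt x - y ∈ G0 A N0), Finset.sum_smul]
    simp_rw [smul_sub, Finset.sum_sub_distrib]
    ring
  have h5 : X ^ (Eb A N0 + 1) ∣
      (∑ x ∈ S.filter (fun x => pt x - y ∈ G0 A N0),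
        c x • ((Rp A N0).eval (A.g (pt x - y) X) - (Rp A N0).eval X) +
      ∑ x ∈ S.filter (fun x => ¬ pt x - y ∈ G0 A N0),
        c x • (Rp A N0).eval (A.g (pt x - y) X)) := by
    refine dvd_add (Finset.dvd_sum fun x hx => ?_) (Finset.dvd_sum fun x hx => ?_)
    · rw [smul_eq_C_mul]
      exact Dvd.dvd.mul_left (hcg _ (Finset.mem_filter.mp hx).2) _
    · rw [smul_eq_C_mul]
      exact Dvd.dvd.mul_left (eval_other A (Finset.mem_filter.mp hx).2) _
  rw [h4] at h2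
  have h6 := (dvd_add_left h5).mp h2
  by_contra hne
  rw [hR, smul_eq_C_mul] at h6
  refine not_dvd_of_unit (u := C (∑ x ∈ S.filter (fun x => pt x - y ∈ G0 A N0), c x) * u)
    (o := Eb A N0) ?_ ?_
  · rw [map_mul, constantCoeff_C]
    exact mul_ne_zero hne hu
  · rw [mul_left_comm]
    exact h6

end Pool.Agent.H2.RR
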