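import Pool.Agent.H2.RR.Chm
import Pool.Agent.H2.RR.Sep

/-!
# Theorem R: `Z_p ^ (h + 1)` does not act on `k⟦X⟧` with ramification growing like `p ^ (h m)`
-/

open PowerSeries
open Pool.Agent.H13.CH (Wild)

namespace Pool.Agent.H2.RR

variable {k : Type*} [Field k]

theorem exists_s (K a b : ℕ) : ∃ s : ℕ, K * (a * s + b) ^ 2 < 2 ^ (s + 1) := by
  have h1 := tendsto_pow_const_div_const_pow_of_one_lt 2 (r := (2 : ℝ)) (by norm_num)
  have h2 : (0 : ℝ) < 1 / (K * (a + b) ^ 2 + 1) := by positivity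
  have h3 := (h1.eventually (gt_mem_nhds h2)).and (Filter.eventually_ge_atTop 1)
  obtain ⟨s, hs, hs1⟩ := h3.exists
  refine ⟨s, ?_⟩
  have h4 : (0 : ℝ) < 2 ^ s := by positivity
  rw [div_lt_div_iff₀ h4 (by positivity)] at hs
  have h5 : (K : ℝ) * (a * s + b) ^ 2 ≤ (K * (a + b) ^ 2 + 1) * (s : ℝ) ^ 2 := by
    have hs1' : (1 : ℝ) ≤ s := by exact_mod_cast hs1
    have h6 : (a * s + b : ℝ) ≤ (a + b) * s := by nlinarith [(Nat.cast_nonneg b : (0 : ℝ) ≤ b)]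
    have h7 : (0 : ℝ) ≤ a * s + b := by positivity
    have h8 : (a * s + b : ℝ) ^ 2 ≤ ((a + b) * s) ^ 2 := pow_le_pow_left₀ h7 h6 2
    have h9 : (K : ℝ) * (a * s + b) ^ 2 ≤ K * ((a + b) * s) ^ 2 :=
      mul_le_mul_of_nonneg_left h8 (Nat.cast_nonneg K)
    nlinarith [sq_nonneg (s : ℝ)]
  have h6 : (K : ℝ) * (a * s + b) ^ 2 < 2 ^ (s + 1) := by
    rw [pow_succ (2 : ℝ) s]
    linarith
  exact_mod_cast h6

/-- restriction to the first factor -/
def res {h : ℕ} (A : Act ((Fin h → ℤ) × ℤ) k) : Act (Fin h → ℤ) k where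
  g x := A.g (x, 0)
  zero := A.zero
  add a b := by
    rw [← A.add]
    rfl
  wild a := A.wild _

theorem smul_mem_G0 {G : Type*} [AddCommGroup G] (p : ℕ) [Fact p.Prime] [CharP k p] (A : Act G k)
    {N0 M : ℕ} (hM : N0 ≤ p ^ M) (x : G) : (p ^ M) • x ∈ G0 A N0 := by
  rw [mem_G0, A.nsmul]
  exact (A.wild x).pow_prime_pow p hM X

/-- points of the finite box -/
def pt (h q : ℕ) (a : (Fin h → Fin q) × Fin q) : (Fin h → ℤ) × ℤ :=
  (fun i => ((a.1 i : ℕ) : ℤ), ((a.2 : ℕ) : ℤ))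

theorem surj (p h : ℕ) [Fact p.Prime] [CharP k p] (A : Act ((Fin h → ℤ) × ℤ) k)
    {N0 M : ℕ} (hM : N0 ≤ p ^ M) :
    Function.Surjective fun a : (Fin h → Fin (p ^ M)) × Fin (p ^ M) =>
      ((pt h (p ^ M) a : (Fin h → ℤ) × ℤ) : ((Fin h → ℤ) × ℤ) ⧸ G0 A N0) := by
  intro q
  obtain ⟨x, rfl⟩ := QuotientAddGroup.mk_surjective q
  have hq : (0 : ℤ) < (p ^ M : ℕ) := by
    have := pow_pos (Fact.out : p.Prime).pos M
    exact_mod_cast this
  have hlt : ∀ z : ℤ, (z % (p ^ M : ℕ)).toNat < p ^ M := by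
    intro z
    have h1 := Int.emod_nonneg z hq.ne'
    have h2 := Int.emod_lt_of_pos z hq
    omega
  refine ⟨(fun i => ⟨_, hlt (x.1 i)⟩, ⟨_, hlt x.2⟩), ?_⟩
  rw [QuotientAddGroup.eq]
  have h1 : ∀ z : ℤ, -(((z % (p ^ M : ℕ)).toNat : ℕ) : ℤ) + z = (p ^ M : ℕ) * (z / (p ^ M : ℕ)) := by
    intro z
    rw [Int.toNat_of_nonneg (Int.emod_nonneg z hq.ne')]
    have := Int.emod_add_mul_ediv z (p ^ M : ℕ)
    linarith
  have h2 : -pt h (p ^ M) (fun i => ⟨_, hlt (x.1 i)⟩, ⟨_, hlt x.2⟩) + x =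
      (p ^ M) • ((fun i => x.1 i / (p ^ M : ℕ), x.2 / (p ^ M : ℕ)) : (Fin h → ℤ) × ℤ) := by
    refine Prod.ext (funext fun i => ?_) ?_
    · change -(((x.1 i % (p ^ M : ℕ)).toNat : ℕ) : ℤ) + x.1 i = (p ^ M) • (x.1 i / (p ^ M : ℕ))
      rw [h1, nsmul_eq_mul]
    · change -(((x.2 % (p ^ M : ℕ)).toNat : ℕ) : ℤ) + x.2 = (p ^ M) • (x.2 / (p ^ M : ℕ))
      rw [h1, nsmul_eq_mul]
  rw [h2]
  exact smul_mem_G0 p A hM _

theorem ram_pair (p : ℕ) [Fact p.Prime] [CharP k p] {h : ℕ} (hh : 1 ≤ h)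
    (A : Act ((Fin h → ℤ) × ℤ) k) (C : ℕ)
    (hC : ∀ (x : (Fin h → ℤ) × ℤ) (m : ℕ),
      ¬ ((∀ i, ((p ^ (m + 1) : ℕ) : ℤ) ∣ x.1 i) ∧ ((p ^ (m + 1) : ℕ) : ℤ) ∣ x.2) →
      ¬ X ^ (C * p ^ (h * m) + 1) ∣ A.g x X - X) : False := by
  classical
  have hp : 0 < p := (Fact.out : p.Prime).pos
  have hp2 : 2 ≤ p := (Fact.out : p.Prime).two_le
  wlog hC0 : 0 < C generalizing C with H
  · refine H (C + 1) (fun x m hx hd => hC x m hx (dvd_trans (pow_dvd_pow X ?_) hd)) (Nat.succ_pos C)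
    have : C * p ^ (h * m) ≤ (C + 1) * p ^ (h * m) := Nat.mul_le_mul_right _ (Nat.le_succ C)
    omega
  have hGr : Gr p (res A) h C := by
    intro x m hx
    refine hC (x, 0) m ?_
    intro hcon
    exact hx hcon.1
  obtain ⟨s, hs⟩ := exists_s (2 * C * p ^ (h + 1)) (h * (h + 2)) ((C + 1) * (h + 2) + 2)
  set N0 := C * p ^ (h * s) + 1 with hN0
  set M := C + 1 + h * s with hM
  have hNM : N0 ≤ p ^ M := by
    have h1 : C + 1 ≤ p ^ (C + 1) := (Nat.lt_pow_self (by omega)).le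
    have h2 : 1 ≤ p ^ (h * s) := pow_pos hp _
    calc N0 ≤ (C + 1) * p ^ (h * s) := by rw [hN0]; nlinarith
      _ ≤ p ^ (C + 1) * p ^ (h * s) := Nat.mul_le_mul_right _ h1
      _ = p ^ M := by rw [hM, pow_add p (C + 1) (h * s)]
  have hsurj := surj p h A hNM
  have : Finite (((Fin h → ℤ) × ℤ) ⧸ G0 A N0) := Finite.of_surjective _ hsurj
  let _ : Fintype (((Fin h → ℤ) × ℤ) ⧸ G0 A N0) := Fintype.ofFinite _
  have hcard : Fintype.card (((Fin h → ℤ) × ℤ) ⧸ G0 A N0) ≤ p ^ (M * (h + 1)) := by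
    refine le_trans (Fintype.card_le_of_surjective _ hsurj) ?_
    rw [Fintype.card_prod, Fintype.card_fun, Fintype.card_fin, Fintype.card_fin, ← pow_succ,
      ← pow_mul]
  set L := M * (h + 2) + 1 with hL
  set N := Eb A N0 + 1 with hN
  have hNL : N ≤ p ^ L := by
    have h1 := Eb_le A (N0 := N0)
    have h2 : Eb A N0 ≤ p ^ (M * (h + 2)) := by
      calc Eb A N0 ≤ N0 * Fintype.card _ := h1
        _ ≤ p ^ M * p ^ (M * (h + 1)) := Nat.mul_le_mul hNM hcard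
        _ = p ^ (M * (h + 2)) := by
          rw [← pow_add]
          congr 1
          ring
    have h3 : 1 ≤ p ^ (M * (h + 2)) := pow_pos hp _
    rw [hN, hL, pow_succ]
    nlinarith
  set r := (Mis (res A) N).card with hr
  have hrb : r < p ^ (s + 1) := by
    have h1 := card_Mis hh (res A) hC0 hGr hNL
    have h2 : 2 * (C * (L + 1) * p ^ h) * (p * L + 1) ≤
        2 * C * p ^ (h + 1) * (h * (h + 2) * s + ((C + 1) * (h + 2) + 2)) ^ 2 := by
      have h3 : h * (h + 2) * s + ((C + 1) * (h + 2) + 2) = L + 1 := by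
        rw [hL, hM]
        ring
      rw [h3, pow_succ]
      have h4 : p * L + 1 ≤ p * (L + 1) := by nlinarith
      calc 2 * (C * (L + 1) * p ^ h) * (p * L + 1) ≤ 2 * (C * (L + 1) * p ^ h) * (p * (L + 1)) :=
            Nat.mul_le_mul_left _ h4
        _ = 2 * C * (p ^ h * p) * (L + 1) ^ 2 := by ring
    have h5 : 2 ^ (s + 1) ≤ p ^ (s + 1) := Nat.pow_le_pow_left hp2 _
    omega
  obtain ⟨c, hc1, hc2⟩ := chm (res A) (A.g (0, 1)) (A.wild _) (fun x f => A.comm _ _ f) N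
  rw [← hr] at hc1 hc2
  have hpow : ∀ j : ℕ, (A.g (0, 1)) ^ j = A.g (0, (j : ℤ)) := by
    intro j
    rw [← A.nsmul]
    congr 1
    refine Prod.ext ?_ ?_
    · change j • (0 : Fin h → ℤ) = 0
      rw [smul_zero]
    · change j • (1 : ℤ) = j
      rw [nsmul_eq_mul, mul_one]
  let S : Finset (Σ _ : ℕ, (Fin h → ℤ)) :=
    (Finset.range (r + 1)).sigma fun j => (c j).coeff.support
  let P : (Σ _ : ℕ, (Fin h → ℤ)) → (Fin h → ℤ) × ℤ := fun y => (y.2, (y.1 : ℤ))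
  have hsum : ∀ f, X ^ (Eb A N0 + 1) ∣ ∑ y ∈ S, (c y.1).coeff y.2 • A.g (P y) f := by
    intro f
    have h1 := hc2 f
    rw [hN] at h1
    refine dvd_trans h1 (dvd_of_eq ?_)
    rw [Finset.sum_sigma]
    refine Finset.sum_congr rfl fun j _ => ?_
    rw [(res A).Phi_apply, Finsupp.sum, hpow]
    refine Finset.sum_congr rfl fun x _ => ?_
    congr 1
    change A.g (x, 0) (A.g (0, (j : ℤ)) f) = A.g (x, (j : ℤ)) f
    rw [← A.add_apply]
    congr 2
    refine Prod.ext ?_ ?_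
    · exact add_zero x
    · exact zero_add _
  have key := sep A S P (fun y => (c y.1).coeff y.2) hsum (0, (r : ℤ))
  have hfil : S.filter (fun y => P y - (0, (r : ℤ)) ∈ G0 A N0) = {⟨r, 0⟩} := by
    ext y
    rw [Finset.mem_filter, Finset.mem_singleton]
    constructor
    · rintro ⟨hy, hy2⟩
      obtain ⟨hy1, hy3⟩ := Finset.mem_sigma.mp hy
      have h1 : ((p ^ (s + 1) : ℕ) : ℤ) ∣ (y.1 : ℤ) - r := by
        by_contra hcon
        exact hC (P y - (0, (r : ℤ))) s (fun h => hcon h.2) ((mem_G0 A).mp hy2)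
      have h2 : y.1 = r := by
        have h3 : y.1 < r + 1 := Finset.mem_range.mp hy1
        by_contra hne
        have h3' : y.1 < r := lt_of_le_of_ne (Nat.lt_succ_iff.mp h3) hne
        have h1' : ((p ^ (s + 1) : ℕ) : ℤ) ∣ (r : ℤ) - (y.1 : ℤ) := by
          have h6 := dvd_neg.mpr h1
          rwa [neg_sub] at h6
        have h4 : ((p ^ (s + 1) : ℕ) : ℤ) ≤ (r : ℤ) - (y.1 : ℤ) :=
          Int.le_of_dvd (by omega) h1'
        have h5 : ((r : ℕ) : ℤ) < ((p ^ (s + 1) : ℕ) : ℤ) := by exact_mod_cast hrb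
        omega
      have h3 : (c y.1).coeff = Finsupp.single 0 1 := by
        rw [h2, hc1]
        rfl
      rw [h3] at hy3
      have h4 := Finsupp.support_single_subset hy3
      rw [Finset.mem_singleton] at h4
      exact Sigma.ext h2 (heq_of_eq h4)
    · rintro rfl
      refine ⟨Finset.mem_sigma.mpr ⟨Finset.self_mem_range_succ r, ?_⟩, ?_⟩
      · simp only [hc1]
        rw [Finsupp.mem_support_iff]
        change (Finsupp.single (0 : Fin h → ℤ) (1 : k)) 0 ≠ 0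
        rw [Finsupp.single_eq_same]
        exact one_ne_zero
      · have h1 : P ⟨r, 0⟩ - (0, (r : ℤ)) = 0 := sub_self _
        rw [h1]
        exact AddSubgroup.zero_mem _
  rw [hfil, Finset.sum_singleton] at key
  simp only [hc1] at key
  have h1 : (Finsupp.single (0 : Fin h → ℤ) (1 : k)) 0 = 0 := key
  rw [Finsupp.single_eq_same] at h1
  exact one_ne_zero h1

end Pool.Agent.H2.RR
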